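import Mathlib
import Pool.Agent.Lib.H80Gallai

/-!
Gallai's bound for vertex-critical graphs with connected complement (helper23), from helper80's
`gallai_core`.
-/

set_option autoImplicit false

namespace Pool.Agent.T3

open Finset SimpleGraph Pool.Agent.Lib.H80

variable {V : Type}

/-- a proper colouring which misses a colour -/
theorem colorable_of_missing {G : SimpleGraph V} {k : ℕ} (c : V → Fin (k + 1))
    (hc : ∀ u v, G.Adj u v → c u ≠ c v) (j : Fin (k + 1)) (hj : ∀ v, c v ≠ j) :
    G.Colorable k := by
  let C : G.Coloring {i : Fin (k + 1) // i ≠ j} :=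
    SimpleGraph.Coloring.mk (fun v => ⟨c v, hj v⟩) (fun {u v} huv h => hc u v huv (by
      simpa using h))
  have h1 := C.colorable
  have h2 : Fintype.card {i : Fin (k + 1) // i ≠ j} = k := by
    simp [Fintype.card_subtype_compl]
  rw [h2] at h1
  exact h1

theorem gallai_card [Fintype V] {G : SimpleGraph V} {k : ℕ} (hk : ¬ G.Colorable k)
    (hcrit : ∀ v, (G.induce {w | w ≠ v}).Colorable k) (hconn : Gᶜ.Preconnected) :
    2 * k + 1 ≤ Fintype.card V := by
  classical
  have hP : ∀ a : V, ∃ P : V → Fin (k + 1), Proper G P ∧ a ∈ Sing P := by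
    intro a
    obtain ⟨C⟩ := hcrit a
    refine ⟨fun w => if h : w = a then Fin.last k else Fin.castSucc (C ⟨w, h⟩), ?_, ?_⟩
    · intro u v huv
      by_cases hu : u = a
      · by_cases hv : v = a
        · exact absurd (hu.trans hv.symm) (G.ne_of_adj huv)
        · simp only [hu, hv, dif_pos, dif_neg, not_false_eq_true]
          exact (Fin.castSucc_lt_last _).ne'
      · by_cases hv : v = a
        · simp only [hu, hv, dif_pos, dif_neg, not_false_eq_true]
          exact (Fin.castSucc_lt_last _).ne
        · simp only [hu, hv, dif_neg, not_false_eq_true]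
          intro h
          have h1 := Fin.castSucc_injective _ h
          exact C.valid (v := ⟨u, hu⟩) (w := ⟨v, hv⟩) huv h1
    · rw [mem_sing]
      intro w hw
      by_contra hwa
      simp only [hwa, dif_pos, dif_neg, not_false_eq_true] at hw
      exact (Fin.castSucc_lt_last _).ne hw
  have hne : Nonempty V := by
    by_contra h
    have : IsEmpty V := not_nonempty_iff.1 h
    exact hk ⟨SimpleGraph.Coloring.mk (fun v => (this.false v).elim) (fun {u v} _ => (this.false u).elim)⟩
  have hcol : G.Colorable (k + 1) := by
    obtain ⟨P, h1, -⟩ := hP hne.some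
    exact ⟨SimpleGraph.Coloring.mk P (fun {u v} huv => h1 u v huv)⟩
  obtain ⟨c, hc, hs⟩ := gallai_core hk hcol hconn (Or.inr hP)
  have hsurj : ∀ i, ∃ v, c v = i := by
    intro i
    by_contra h
    push Not at h
    exact hk (colorable_of_missing c hc i h)
  have h1 : Fintype.card V = ∑ i : Fin (k + 1), (univ.filter (fun v => c v = i)).card := by
    rw [← Finset.card_univ]
    exact Finset.card_eq_sum_card_fiberwise (fun v _ => mem_univ _)
  have h2 : (Sing c).card = ∑ i : Fin (k + 1), ((Sing c).filter (fun v => c v = i)).card :=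
    Finset.card_eq_sum_card_fiberwise (fun v _ => mem_univ _)
  have h3 : ∀ i ∈ (univ : Finset (Fin (k + 1))), 2 ≤ (univ.filter (fun v => c v = i)).card +
      ((Sing c).filter (fun v => c v = i)).card := by
    intro i _
    obtain ⟨v, hv⟩ := hsurj i
    have h4 : 0 < (univ.filter (fun v => c v = i)).card :=
      Finset.card_pos.2 ⟨v, by simpa using hv⟩
    rcases Nat.lt_or_ge (univ.filter (fun v => c v = i)).card 2 with h5 | h5
    · have h6 : (univ.filter (fun v => c v = i)).card = 1 := by omega
      obtain ⟨w, hw⟩ := Finset.card_eq_one.1 h6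
      have h7 : ∀ x, c x = i → x = w := fun x hx => by
        have : x ∈ univ.filter (fun v => c v = i) := by simpa using hx
        rw [hw] at this
        exact Finset.mem_singleton.1 this
      have h8 : v ∈ (Sing c).filter (fun v => c v = i) := by
        rw [Finset.mem_filter, mem_sing]
        exact ⟨fun x hx => (h7 x (hx.trans hv)).trans (h7 v hv).symm, hv⟩
      have := Finset.card_pos.2 ⟨v, h8⟩
      omega
    · omega
  have h4 := Finset.sum_le_sum h3
  rw [Finset.sum_add_distrib, ← h1, ← h2, Finset.sum_const, Finset.card_univ, Fintype.card_fin,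
    smul_eq_mul] at h4
  omega

end Pool.Agent.T3
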