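import Mathlib
import Pool.Agent.CA31.Closure

/-!
# T3: split models

`SM G b`: bags of a `K_b` minor and one more bag `z`, such that each of the `b` bags touches `z` or is
the union of two connected sets. This property is closed under joins with one extra bag.
-/

set_option autoImplicit false

namespace Pool.Agent.T3

open Pool.Agent.CA31 Pool.Agent.CA72 Pool.Agent.CA31C
open scoped Classical

/-- two vertex sets joined by an edge -/
def Tch {V : Type} (G : SimpleGraph V) (S T : Set V) : Prop := ∃ u ∈ S, ∃ v ∈ T, G.Adj u v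

theorem Tch.symm {V : Type} {G : SimpleGraph V} {S T : Set V} (h : Tch G S T) : Tch G T S := by
  obtain ⟨u, hu, v, hv, huv⟩ := h
  exact ⟨v, hv, u, hu, huv.symm⟩

theorem Tch.mono {V : Type} {G : SimpleGraph V} {S T S' T' : Set V} (h : Tch G S T) (hS : S ⊆ S')
    (hT : T ⊆ T') : Tch G S' T' := by
  obtain ⟨u, hu, v, hv, huv⟩ := h
  exact ⟨u, hS hu, v, hT hv, huv⟩

/-- disjoint connected sets -/
def Fam {V L : Type} (G : SimpleGraph V) (F : L → Set V) : Prop :=
  (∀ l, (G.induce (F l)).Connected) ∧ ∀ l l', l ≠ l' → Disjoint (F l) (F l')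

/-- labels: the extra bag `z`, the bags `u i` touching `z`, the two halves `p j s` of the split bags -/
inductive Lab (I J : Type) : Type
  | z : Lab I J
  | u (i : I) : Lab I J
  | p (j : J) (s : Bool) : Lab I J

/-- split model of a complete minor -/
def SM {V : Type} (G : SimpleGraph V) (b : ℕ) : Prop :=
  ∃ (I J : Type) (_ : Fintype I) (_ : Fintype J) (F : Lab I J → Set V),
    b ≤ Fintype.card I + Fintype.card J ∧ Fam G F ∧
    (∀ i, Tch G (F Lab.z) (F (Lab.u i))) ∧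
    (∀ i i', i ≠ i' → Tch G (F (Lab.u i)) (F (Lab.u i'))) ∧
    (∀ j, Tch G (F (Lab.p j false)) (F (Lab.p j true))) ∧
    (∀ i j, ∃ s, Tch G (F (Lab.u i)) (F (Lab.p j s))) ∧
    (∀ j j', j ≠ j' → ∃ s s', Tch G (F (Lab.p j s)) (F (Lab.p j' s')))

theorem conn_two {V : Type} {G : SimpleGraph V} {S T : Set V} (hS : (G.induce S).Connected)
    (hT : (G.induce T).Connected) (h : Tch G S T) : (G.induce (S ∪ T)).Connected := by
  obtain ⟨u, hu, v, hv, huv⟩ := h
  exact SimpleGraph.connected_induce_union hS.preconnected hT.preconnected hu hv huv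

theorem SM.mono {V : Type} {G : SimpleGraph V} {b b' : ℕ} (h : SM G b) (hb : b' ≤ b) : SM G b' := by
  obtain ⟨I, J, hI, hJ, F, h1, h2⟩ := h
  exact ⟨I, J, hI, hJ, F, hb.trans h1, h2⟩

/-- a split model is a complete minor -/
theorem SM.hasMinor {V : Type} {G : SimpleGraph V} {b : ℕ} (h : SM G b) : HasMinor G b := by
  obtain ⟨I, J, hI, hJ, F, h1, ⟨hc, hd⟩, h2, h3, h4, h5, h6⟩ := h
  let B : I ⊕ J → Set V := fun x => match x with
    | Sum.inl i => F (Lab.u i)
    | Sum.inr j => F (Lab.p j false) ∪ F (Lab.p j true)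
  have hsub : ∀ j s, F (Lab.p j s) ⊆ B (Sum.inr j) := by
    intro j s
    cases s
    · exact Set.subset_union_left
    · exact Set.subset_union_right
  have B1 : ∀ x, (G.induce (B x)).Connected := by
    rintro (i | j)
    · exact hc _
    · exact conn_two (hc _) (hc _) (h4 j)
  have B2 : ∀ x y, x ≠ y → Disjoint (B x) (B y) := by
    rintro (i | i) (j | j) h
    · exact hd _ _ (fun e => h (by injection e with e; rw [e]))
    · refine Set.disjoint_union_right.2 ⟨hd _ _ (fun e => by injection e), hd _ _ (fun e => by injection e)⟩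
    · refine Set.disjoint_union_left.2 ⟨hd _ _ (fun e => by injection e), hd _ _ (fun e => by injection e)⟩
    · have hij : i ≠ j := fun e => h (by rw [e])
      refine Set.disjoint_union_left.2 ⟨Set.disjoint_union_right.2 ⟨?_, ?_⟩, Set.disjoint_union_right.2 ⟨?_, ?_⟩⟩ <;>
        exact hd _ _ (fun e => by injection e with e1 e2; exact hij e1)
  have B3 : ∀ x y, x ≠ y → Tch G (B x) (B y) := by
    rintro (i | i) (j | j) h
    · exact h3 i j (fun e => h (by rw [e]))
    · obtain ⟨s, hs⟩ := h5 i j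
      exact hs.mono le_rfl (hsub j s)
    · obtain ⟨s, hs⟩ := h5 j i
      exact (hs.mono le_rfl (hsub i s)).symm
    · obtain ⟨s, s', hs⟩ := h6 i j (fun e => h (by rw [e]))
      exact hs.mono (hsub i s) (hsub j s')
  have e : Fin (Fintype.card I + Fintype.card J) ≃ I ⊕ J :=
    (Fintype.equivFinOfCardEq (by rw [Fintype.card_sum])).symm
  refine hasMinor_mono h1 ⟨fun i => B (e i), fun i => B1 _,
    fun i j hij => B2 _ _ (fun e' => hij (e.injective e')),
    fun i j hij => B3 _ _ (fun e' => hij (e.injective e'))⟩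

/-- a complete minor with one more bag gives a split model -/
theorem SM.of_hasMinor {V : Type} {G : SimpleGraph V} {b : ℕ} (h : HasMinor G (b + 1)) : SM G b := by
  obtain ⟨f, h1, h2, h3⟩ := h
  let F : Lab (Fin b) Empty → Set V := fun l => match l with
    | Lab.z => f (Fin.last b)
    | Lab.u i => f i.castSucc
    | Lab.p j _ => j.elim
  refine ⟨Fin b, Empty, inferInstance, inferInstance, F, by simp, ⟨?_, ?_⟩, ?_, ?_, ?_, ?_, ?_⟩
  · rintro (_ | i | ⟨j, s⟩)
    · exact h1 _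
    · exact h1 _
    · exact j.elim
  · rintro (_ | i | ⟨j, s⟩) (_ | i' | ⟨j', s'⟩) hne
    · exact absurd rfl hne
    · exact h2 _ _ (Fin.castSucc_lt_last i').ne'
    · exact j'.elim
    · exact h2 _ _ (Fin.castSucc_lt_last i).ne
    · exact h2 _ _ (fun e => hne (by rw [Fin.castSucc_injective b e]))
    · exact j'.elim
    · exact j.elim
    · exact j.elim
    · exact j.elim
  · exact fun i => h3 _ _ (Fin.castSucc_lt_last i).ne'
  · exact fun i i' hi => h3 _ _ (fun e => hi (Fin.castSucc_injective b e))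
  · exact fun j => j.elim
  · exact fun i j => j.elim
  · exact fun j => j.elim

/-- transfer of families from a quotient -/
theorem Fam.quot {V W L : Type} {G : SimpleGraph V} {f : W → Set V}
    (hc : ∀ i, (G.induce (f i)).Connected) (hd : ∀ i j, i ≠ j → Disjoint (f i) (f j))
    {F : L → Set W} (h : Fam (QG G f) F) : Fam G (fun l => {v | ∃ i ∈ F l, v ∈ f i}) := by
  refine ⟨fun l => conn_union hc (h.1 l), fun l l' hl => ?_⟩
  rw [Set.disjoint_left]
  rintro v ⟨i, hi, hv⟩ ⟨j, hj, hv'⟩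
  have hij : i ≠ j := by
    rintro rfl
    exact Set.disjoint_left.1 (h.2 l l' hl) hi hj
  exact Set.disjoint_left.1 (hd i j hij) hv hv'

theorem Tch.quot {V W : Type} {G : SimpleGraph V} {f : W → Set V} {S T : Set W}
    (h : Tch (QG G f) S T) : Tch G {v | ∃ i ∈ S, v ∈ f i} {v | ∃ i ∈ T, v ∈ f i} := by
  obtain ⟨i, hi, j, hj, -, u, hu, v, hv, huv⟩ := h
  exact ⟨u, ⟨i, hi, hu⟩, v, ⟨j, hj, hv⟩, huv⟩

/-- split models of a quotient -/
theorem SM.quot {V W : Type} {G : SimpleGraph V} {f : W → Set V}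
    (hc : ∀ i, (G.induce (f i)).Connected) (hd : ∀ i j, i ≠ j → Disjoint (f i) (f j)) {b : ℕ}
    (h : SM (QG G f) b) : SM G b := by
  obtain ⟨I, J, hI, hJ, F, h1, h2, h3, h4, h5, h6, h7⟩ := h
  refine ⟨I, J, hI, hJ, fun l => {v | ∃ i ∈ F l, v ∈ f i}, h1, h2.quot hc hd, fun i => (h3 i).quot,
    fun i i' hi => (h4 i i' hi).quot, fun j => (h5 j).quot, fun i j => ?_, fun j j' hj => ?_⟩
  · obtain ⟨s, hs⟩ := h6 i j
    exact ⟨s, hs.quot⟩
  · obtain ⟨s, s', hs⟩ := h7 j j' hj
    exact ⟨s, s', hs.quot⟩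

/-- split models of an induced subgraph -/
theorem SM.of_induce {V : Type} {G : SimpleGraph V} {A : Set V} {b : ℕ} (h : SM (G.induce A) b) :
    SM G b := by
  have e : QG G (fun a : A => ({a.1} : Set V)) = G.induce A := by
    ext x y
    rw [QG_adj]
    constructor
    · rintro ⟨-, u, hu, v, hv, huv⟩
      rw [Set.mem_singleton_iff] at hu hv
      rw [hu, hv] at huv
      exact huv
    · intro hxy
      exact ⟨hxy.ne, x.1, rfl, y.1, rfl, hxy⟩
  refine SM.quot (f := fun a : A => ({a.1} : Set V)) (fun i => singleton_conn G i.1) ?_ (e ▸ h)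
  intro i j hij
  rw [Set.disjoint_singleton]
  exact fun e => hij (Subtype.ext e)

/-- a matching of `k` edges, each two of them adjacent, and one more vertex -/
theorem SM.of_edges {V : Type} {G : SimpleGraph V} {k : ℕ} (x y : Fin k → V) (w : V)
    (hxy : ∀ i, G.Adj (x i) (y i)) (hx : ∀ i j, i ≠ j → x i ≠ x j) (hy : ∀ i j, i ≠ j → y i ≠ y j)
    (hd : ∀ i j, x i ≠ y j) (hwx : ∀ i, x i ≠ w) (hwy : ∀ i, y i ≠ w)
    (ht : ∀ i j, i ≠ j → G.Adj (x i) (x j) ∨ G.Adj (x i) (y j) ∨ G.Adj (y i) (x j) ∨ G.Adj (y i) (y j)) :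
    SM G k := by
  let F : Lab Empty (Fin k) → Set V := fun l => match l with
    | Lab.z => {w}
    | Lab.u i => i.elim
    | Lab.p j s => {if s then y j else x j}
  have hF : ∀ j s, F (Lab.p j s) = {if s then y j else x j} := fun j s => rfl
  refine ⟨Empty, Fin k, inferInstance, inferInstance, F, by simp, ⟨?_, ?_⟩, ?_, ?_, ?_, ?_, ?_⟩
  · rintro (_ | i | ⟨j, s⟩)
    · exact singleton_conn G w
    · exact i.elim
    · exact singleton_conn G _
  · rintro (_ | i | ⟨j, s⟩) (_ | i' | ⟨j', s'⟩) hne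
    · exact absurd rfl hne
    · exact i'.elim
    · rw [hF]
      show Disjoint ({w} : Set V) _
      rw [Set.disjoint_singleton]
      cases s'
      · exact (hwx j').symm
      · exact (hwy j').symm
    · exact i.elim
    · exact i.elim
    · exact i.elim
    · rw [hF]
      show Disjoint _ ({w} : Set V)
      rw [Set.disjoint_singleton]
      cases s
      · exact hwx j
      · exact hwy j
    · exact i'.elim
    · rw [hF, hF, Set.disjoint_singleton]
      by_cases hj : j = j'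
      · subst hj
        cases s <;> cases s'
        · exact absurd rfl hne
        · exact hd j j
        · exact (hd j j).symm
        · exact absurd rfl hne
      · cases s <;> cases s'
        · exact hx j j' hj
        · exact hd j j'
        · exact (hd j' j).symm
        · exact hy j j' hj
  · exact fun i => i.elim
  · exact fun i => i.elim
  · exact fun j => ⟨x j, rfl, y j, rfl, hxy j⟩
  · exact fun i => i.elim
  · intro j j' hj
    rcases ht j j' hj with h | h | h | h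
    · exact ⟨false, false, x j, rfl, x j', rfl, h⟩
    · exact ⟨false, true, x j, rfl, y j', rfl, h⟩
    · exact ⟨true, false, y j, rfl, x j', rfl, h⟩
    · exact ⟨true, true, y j, rfl, y j', rfl, h⟩

section join
variable {V : Type} {G : SimpleGraph V} {A B : Set V}

/-- the part of a combined bag which comes from one side -/
def part {V L : Type} (F : L → Set V) : Option L → Set V
  | none => ∅
  | some l => F l

/-- combination of a family on `A` with a family on `B` -/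
def comb {L1 L2 L : Type} {A B : Set V} (F1 : L1 → Set A) (F2 : L2 → Set B)
    (g1 : L → Option L1) (g2 : L → Option L2) (l : L) : Set V :=
  Subtype.val '' part F1 (g1 l) ∪ Subtype.val '' part F2 (g2 l)

theorem comb_fam {L1 L2 L : Type} (hj : ∀ a ∈ A, ∀ b ∈ B, G.Adj a b)
    {F1 : L1 → Set A} {F2 : L2 → Set B} {g1 : L → Option L1} {g2 : L → Option L2}
    (h1 : Fam (G.induce A) F1) (h2 : Fam (G.induce B) F2)
    (hg1 : ∀ l l' a, g1 l = some a → g1 l' = some a → l = l')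
    (hg2 : ∀ l l' a, g2 l = some a → g2 l' = some a → l = l')
    (hg : ∀ l, g1 l ≠ none ∨ g2 l ≠ none) : Fam G (comb F1 F2 g1 g2) := by
  constructor
  · intro l
    unfold comb
    rcases e1 : g1 l with _ | a <;> rcases e2 : g2 l with _ | b
    · rcases hg l with h | h
      · exact absurd e1 h
      · exact absurd e2 h
    · have : Subtype.val '' part F1 none ∪ Subtype.val '' part F2 (some b) = Subtype.val '' F2 b := by
        simp [part]
      rw [this]
      exact image_conn (h2.1 b)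
    · have : Subtype.val '' part F1 (some a) ∪ Subtype.val '' part F2 none = Subtype.val '' F1 a := by
        simp [part]
      rw [this]
      exact image_conn (h1.1 a)
    · show (G.induce (Subtype.val '' F1 a ∪ Subtype.val '' F2 b)).Connected
      refine conn_two (image_conn (h1.1 a)) (image_conn (h2.1 b)) ?_
      obtain ⟨u, hu⟩ := (h1.1 a).nonempty
      obtain ⟨v, hv⟩ := (h2.1 b).nonempty
      exact ⟨u.1, ⟨u, hu, rfl⟩, v.1, ⟨v, hv, rfl⟩, hj _ u.2 _ v.2⟩
  · intro l l' hl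
    rw [Set.disjoint_left]
    unfold comb
    rintro x (⟨u, hu, rfl⟩ | ⟨u, hu, rfl⟩) (⟨v, hv, hv'⟩ | ⟨v, hv, hv'⟩)
    · have huv : v = u := Subtype.ext hv'
      subst huv
      rcases e1 : g1 l with _ | a
      · rw [e1] at hu; exact hu
      · rcases e2 : g1 l' with _ | b
        · rw [e2] at hv; exact hv
        · rw [e1] at hu; rw [e2] at hv
          have hab : a ≠ b := by
            rintro rfl
            exact hl (hg1 l l' a e1 e2)
          exact Set.disjoint_left.1 (h1.2 a b hab) hu hv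
    · exact (hj _ u.2 _ v.2).ne hv'.symm
    · exact (hj _ v.2 _ u.2).ne hv'
    · have huv : v = u := Subtype.ext hv'
      subst huv
      rcases e1 : g2 l with _ | a
      · rw [e1] at hu; exact hu
      · rcases e2 : g2 l' with _ | b
        · rw [e2] at hv; exact hv
        · rw [e1] at hu; rw [e2] at hv
          have hab : a ≠ b := by
            rintro rfl
            exact hl (hg2 l l' a e1 e2)
          exact Set.disjoint_left.1 (h2.2 a b hab) hu hv

theorem comb_tch12 {L1 L2 L : Type} (hj : ∀ a ∈ A, ∀ b ∈ B, G.Adj a b)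
    {F1 : L1 → Set A} {F2 : L2 → Set B} {g1 : L → Option L1} {g2 : L → Option L2}
    (h1 : Fam (G.induce A) F1) (h2 : Fam (G.induce B) F2) {l l' : L} (a : L1) (b : L2)
    (ha : g1 l = some a) (hb : g2 l' = some b) :
    Tch G (comb F1 F2 g1 g2 l) (comb F1 F2 g1 g2 l') := by
  obtain ⟨u, hu⟩ := (h1.1 a).nonempty
  obtain ⟨v, hv⟩ := (h2.1 b).nonempty
  refine ⟨u.1, Or.inl ⟨u, ?_, rfl⟩, v.1, Or.inr ⟨v, ?_, rfl⟩, hj _ u.2 _ v.2⟩
  · rw [ha]; exact hu
  · rw [hb]; exact hv

theorem comb_tch21 {L1 L2 L : Type} (hj : ∀ a ∈ A, ∀ b ∈ B, G.Adj a b)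
    {F1 : L1 → Set A} {F2 : L2 → Set B} {g1 : L → Option L1} {g2 : L → Option L2}
    (h1 : Fam (G.induce A) F1) (h2 : Fam (G.induce B) F2) {l l' : L} (a : L1) (b : L2)
    (ha : g1 l = some a) (hb : g2 l' = some b) :
    Tch G (comb F1 F2 g1 g2 l') (comb F1 F2 g1 g2 l) :=
  (comb_tch12 hj h1 h2 a b ha hb).symm

theorem comb_tch1 {L1 L2 L : Type}
    {F1 : L1 → Set A} {F2 : L2 → Set B} {g1 : L → Option L1} {g2 : L → Option L2}
    {l l' : L} {a b : L1} (ha : g1 l = some a) (hb : g1 l' = some b)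
    (h : Tch (G.induce A) (F1 a) (F1 b)) : Tch G (comb F1 F2 g1 g2 l) (comb F1 F2 g1 g2 l') := by
  obtain ⟨u, hu, v, hv, huv⟩ := h
  refine ⟨u.1, Or.inl ⟨u, ?_, rfl⟩, v.1, Or.inl ⟨v, ?_, rfl⟩, huv⟩
  · rw [ha]; exact hu
  · rw [hb]; exact hv

theorem comb_tch2 {L1 L2 L : Type}
    {F1 : L1 → Set A} {F2 : L2 → Set B} {g1 : L → Option L1} {g2 : L → Option L2}
    {l l' : L} {a b : L2} (ha : g2 l = some a) (hb : g2 l' = some b)
    (h : Tch (G.induce B) (F2 a) (F2 b)) : Tch G (comb F1 F2 g1 g2 l) (comb F1 F2 g1 g2 l') := by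
  obtain ⟨u, hu, v, hv, huv⟩ := h
  refine ⟨u.1, Or.inr ⟨u, ?_, rfl⟩, v.1, Or.inr ⟨v, ?_, rfl⟩, huv⟩
  · rw [ha]; exact hu
  · rw [hb]; exact hv

/-- the labels of the bags touching `z` in the combined model -/
abbrev JI (I1 I2 J2 : Type) : Type := I1 ⊕ I2 ⊕ (J2 × Bool) ⊕ Unit

/-- the label on the first side -/
def g1 {I1 J1 I2 J2 : Type} (σ : J2 → J1) :
    Lab (JI I1 I2 J2) {j : J1 // j ∉ Set.range σ} → Option (Lab I1 J1)
  | Lab.z => some Lab.z
  | Lab.u (Sum.inl i) => some (Lab.u i)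
  | Lab.u (Sum.inr (Sum.inl _)) => none
  | Lab.u (Sum.inr (Sum.inr (Sum.inl (j, s)))) => some (Lab.p (σ j) s)
  | Lab.u (Sum.inr (Sum.inr (Sum.inr _))) => none
  | Lab.p j s => some (Lab.p j.1 s)

/-- the label on the second side -/
def g2 {I1 J1 I2 J2 : Type} (σ : J2 → J1) :
    Lab (JI I1 I2 J2) {j : J1 // j ∉ Set.range σ} → Option (Lab I2 J2)
  | Lab.z => none
  | Lab.u (Sum.inl _) => none
  | Lab.u (Sum.inr (Sum.inl i)) => some (Lab.u i)
  | Lab.u (Sum.inr (Sum.inr (Sum.inl (j, s)))) => some (Lab.p j s)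
  | Lab.u (Sum.inr (Sum.inr (Sum.inr _))) => some Lab.z
  | Lab.p _ _ => none

theorem g1_inj {I1 J1 I2 J2 : Type} {σ : J2 → J1} (hσ : Function.Injective σ)
    (l l' : Lab (JI I1 I2 J2) {j : J1 // j ∉ Set.range σ}) (a : Lab I1 J1)
    (h : g1 σ l = some a) (h' : g1 σ l' = some a) : l = l' := by
  subst_vars
  rcases l with _ | (i | i | ⟨j, s⟩ | ⟨⟩) | ⟨j, s⟩ <;> rcases l' with _ | (i' | i' | ⟨j', s'⟩ | ⟨⟩) | ⟨j', s'⟩ <;>
    simp only [g1, Option.some.injEq, reduceCtorEq] at h h' <;> subst h <;>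
    simp only [Lab.u.injEq, Lab.p.injEq, reduceCtorEq] at h' <;> try rfl
  · rw [h']
  · obtain ⟨h1, rfl⟩ := h'
    rw [hσ h1]
  · exact absurd ⟨j, h'.1.symm⟩ j'.2
  · exact absurd ⟨j', h'.1⟩ j.2
  · obtain ⟨h1, rfl⟩ := h'
    rw [Subtype.ext h1]

theorem g2_inj {I1 J1 I2 J2 : Type} {σ : J2 → J1}
    (l l' : Lab (JI I1 I2 J2) {j : J1 // j ∉ Set.range σ}) (a : Lab I2 J2)
    (h : g2 σ l = some a) (h' : g2 σ l' = some a) : l = l' := by
  rcases l with _ | (i | i | ⟨j, s⟩ | ⟨⟩) | ⟨j, s⟩ <;> rcases l' with _ | (i' | i' | ⟨j', s'⟩ | ⟨⟩) | ⟨j', s'⟩ <;>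
    simp only [g2, Option.some.injEq, reduceCtorEq] at h h' <;> subst h <;>
    simp only [Lab.u.injEq, Lab.p.injEq, reduceCtorEq] at h' <;> try rfl
  · rw [h']
  · obtain ⟨rfl, rfl⟩ := h'
    rfl

theorem SM.join_aux (hj : ∀ a ∈ A, ∀ b ∈ B, G.Adj a b) {I1 J1 I2 J2 : Type} [Fintype I1]
    [Fintype J1] [Fintype I2] [Fintype J2] {F1 : Lab I1 J1 → Set A} {F2 : Lab I2 J2 → Set B}
    (h1 : Fam (G.induce A) F1) (h2 : Fam (G.induce B) F2)
    (a1 : ∀ i, Tch (G.induce A) (F1 Lab.z) (F1 (Lab.u i)))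
    (a2 : ∀ i i', i ≠ i' → Tch (G.induce A) (F1 (Lab.u i)) (F1 (Lab.u i')))
    (a3 : ∀ j, Tch (G.induce A) (F1 (Lab.p j false)) (F1 (Lab.p j true)))
    (a4 : ∀ i j, ∃ s, Tch (G.induce A) (F1 (Lab.u i)) (F1 (Lab.p j s)))
    (a5 : ∀ j j', j ≠ j' → ∃ s s', Tch (G.induce A) (F1 (Lab.p j s)) (F1 (Lab.p j' s')))
    (b1 : ∀ i, Tch (G.induce B) (F2 Lab.z) (F2 (Lab.u i)))
    (b2 : ∀ i i', i ≠ i' → Tch (G.induce B) (F2 (Lab.u i)) (F2 (Lab.u i')))
    (b4 : ∀ i j, ∃ s, Tch (G.induce B) (F2 (Lab.u i)) (F2 (Lab.p j s)))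
    (hJ : Fintype.card J2 ≤ Fintype.card J1) :
    SM G (Fintype.card I1 + Fintype.card J1 + (Fintype.card I2 + Fintype.card J2) + 1) := by
  obtain ⟨σ⟩ := Function.Embedding.nonempty_of_card_le hJ
  have hσ := σ.injective
  have hcard : Fintype.card J1 = Fintype.card J2 + Fintype.card {j : J1 // j ∉ Set.range σ} := by
    rw [← Fintype.card_sum]
    exact Fintype.card_congr ((Equiv.sumCompl (fun j => j ∈ Set.range σ)).symm.trans
      (Equiv.sumCongr (Equiv.ofInjective σ hσ).symm (Equiv.refl _)))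
  refine ⟨JI I1 I2 J2, {j : J1 // j ∉ Set.range σ}, inferInstance, inferInstance,
    comb F1 F2 (g1 σ) (g2 σ), ?_, ?_, ?_, ?_, ?_, ?_, ?_⟩
  · simp only [Fintype.card_sum, Fintype.card_prod, Fintype.card_bool, Fintype.card_unit]
    omega
  · refine comb_fam hj h1 h2 (g1_inj hσ) g2_inj ?_
    rintro (_ | (i | i | ⟨j, s⟩ | ⟨⟩) | ⟨j, s⟩) <;> simp [g1, g2]
  · rintro (i | i | ⟨j, s⟩ | ⟨⟩)
    · exact comb_tch1 rfl rfl (a1 i)
    · exact comb_tch12 hj h1 h2 _ _ rfl rfl
    · exact comb_tch12 hj h1 h2 _ _ rfl rfl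
    · exact comb_tch12 hj h1 h2 _ _ rfl rfl
  · rintro (i | i | ⟨j, s⟩ | ⟨⟩) (i' | i' | ⟨j', s'⟩ | ⟨⟩) hne
    · exact comb_tch1 rfl rfl (a2 i i' (fun e => hne (by rw [e])))
    · exact comb_tch12 hj h1 h2 _ _ rfl rfl
    · exact comb_tch12 hj h1 h2 _ _ rfl rfl
    · exact comb_tch12 hj h1 h2 _ _ rfl rfl
    · exact comb_tch21 hj h1 h2 _ _ rfl rfl
    · exact comb_tch2 rfl rfl (b2 i i' (fun e => hne (by rw [e])))
    · exact comb_tch21 hj h1 h2 _ _ rfl rfl
    · exact comb_tch2 rfl rfl (b1 i).symm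
    · exact comb_tch21 hj h1 h2 _ _ rfl rfl
    · exact comb_tch12 hj h1 h2 _ _ rfl rfl
    · exact comb_tch12 hj h1 h2 _ _ rfl rfl
    · exact comb_tch12 hj h1 h2 _ _ rfl rfl
    · exact comb_tch21 hj h1 h2 _ _ rfl rfl
    · exact comb_tch2 rfl rfl (b1 i')
    · exact comb_tch21 hj h1 h2 _ _ rfl rfl
    · exact absurd rfl hne
  · rintro ⟨j, hj'⟩
    exact comb_tch1 rfl rfl (a3 j)
  · rintro (i | i | ⟨j, s⟩ | ⟨⟩) ⟨j', hj'⟩
    · obtain ⟨s, hs⟩ := a4 i j'
      exact ⟨s, comb_tch1 rfl rfl hs⟩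
    · exact ⟨false, comb_tch21 hj h1 h2 _ _ rfl rfl⟩
    · exact ⟨false, comb_tch21 hj h1 h2 _ _ rfl rfl⟩
    · exact ⟨false, comb_tch21 hj h1 h2 _ _ rfl rfl⟩
  · rintro ⟨j, hj'⟩ ⟨j', hj''⟩ hne
    obtain ⟨s, s', hs⟩ := a5 j j' (fun e => hne (Subtype.ext e))
    exact ⟨s, s', comb_tch1 rfl rfl hs⟩

/-- split models of joins; the join has one more bag -/
theorem SM.join (hj : ∀ a ∈ A, ∀ b ∈ B, G.Adj a b) {m n : ℕ} (hA : SM (G.induce A) m)
    (hB : SM (G.induce B) n) : SM G (m + n + 1) := by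
  obtain ⟨I1, J1, hI1, hJ1, F1, hm, h1, a1, a2, a3, a4, a5⟩ := hA
  obtain ⟨I2, J2, hI2, hJ2, F2, hn, h2, b1, b2, b3, b4, b5⟩ := hB
  rcases le_total (Fintype.card J2) (Fintype.card J1) with h | h
  · exact (SM.join_aux hj h1 h2 a1 a2 a3 a4 a5 b1 b2 b4 h).mono (by omega)
  · exact (SM.join_aux (fun a ha b hb => (hj b hb a ha).symm) h2 h1 b1 b2 b3 b4 b5 a1 a2 a4 h).mono
      (by omega)

end join

/-- if `G` satisfies Hadwiger's conjecture then it has split models -/
theorem SM.of_hadwiger {V : Type} {G : SimpleGraph V} {k : ℕ}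
    (h : ∀ k, ¬ G.Colorable k → HasMinor G (k + 1)) (hk : ¬ G.Colorable k) : SM G k :=
  SM.of_hasMinor (h k hk)

/-- a clique on `k + 1` vertices is a split model -/
theorem SM.of_clique {V : Type} {G : SimpleGraph V} {k : ℕ} (h : ¬ G.CliqueFree (k + 1)) :
    SM G k := by
  rw [SimpleGraph.CliqueFree] at h
  push Not at h
  obtain ⟨t, ht⟩ := h
  have e : Fin (k + 1) ≃ t := (Fintype.equivFinOfCardEq (by simpa using ht.card_eq)).symm
  refine SM.of_hasMinor ⟨fun i => {(e i).1}, fun i => singleton_conn G _, fun i j hij => ?_,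
    fun i j hij => ?_⟩
  · rw [Set.disjoint_singleton]
    exact fun h => hij (e.injective (Subtype.ext h))
  · exact ⟨_, rfl, _, rfl, ht.isClique (e i).2 (e j).2 (fun h => hij (e.injective (Subtype.ext h)))⟩

/-- split models of a join of two graphs with split models -/
theorem SM.of_join {V : Type} [Finite V] {G : SimpleGraph V} {A : Set V}
    (hj : ∀ a ∈ A, ∀ b ∈ Aᶜ, G.Adj a b) (hA : A.Nonempty) (hB : (Aᶜ).Nonempty)
    (h1 : ∀ m, ¬ (G.induce A).Colorable m → SM (G.induce A) m)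
    (h2 : ∀ m, ¬ (G.induce Aᶜ).Colorable m → SM (G.induce Aᶜ) m) {k : ℕ} (hk : ¬ G.Colorable k) :
    SM G k := by
  obtain ⟨a, ha, ha'⟩ := exists_chi (G.induce A)
  obtain ⟨b, hb, hb'⟩ := exists_chi (G.induce Aᶜ)
  have hapos : a ≠ 0 := by
    rintro rfl
    obtain ⟨v, hv⟩ := hA
    exact (ha.some ⟨v, hv⟩).elim0
  have hbpos : b ≠ 0 := by
    rintro rfl
    obtain ⟨v, hv⟩ := hB
    exact (hb.some ⟨v, hv⟩).elim0
  have hab : k + 1 ≤ a + b := by
    by_contra hlt
    exact hk ((colorable_join ha hb).mono (by omega))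
  exact (SM.join hj (h1 (a - 1) (ha' _ (by omega))) (h2 (b - 1) (hb' _ (by omega)))).mono (by omega)

/-- split models of a clique sum -/
theorem SM.of_cliqueSum {V : Type} {G : SimpleGraph V} {A B : Set V} (hAB : A ∪ B = Set.univ)
    (hc : G.IsClique (A ∩ B)) (hn : ∀ a ∈ A \ B, ∀ b ∈ B \ A, ¬ G.Adj a b)
    (h1 : ∀ m, ¬ (G.induce A).Colorable m → SM (G.induce A) m)
    (h2 : ∀ m, ¬ (G.induce B).Colorable m → SM (G.induce B) m) {k : ℕ} (hk : ¬ G.Colorable k) :
    SM G k := by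
  by_cases hA : (G.induce A).Colorable k
  · by_cases hB : (G.induce B).Colorable k
    · exact absurd (colorable_cliqueSum hAB hc hn hA hB) hk
    · exact (h2 k hB).of_induce
  · exact (h1 k hA).of_induce

end Pool.Agent.T3
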