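import Mathlib

/-!
# T3: the Tutte-Berge formula (the inequality needed), in terms of labellings
-/

set_option autoImplicit false

namespace Pool.Agent.T3

open Finset
open scoped Classical

/-- `H` with `t` universal vertices added -/
def addU {V : Type} (H : SimpleGraph V) (t : ℕ) : SimpleGraph (V ⊕ Fin t) where
  Adj x y := x ≠ y ∧ ∀ u v, x = Sum.inl u → y = Sum.inl v → H.Adj u v
  symm := ⟨by
    rintro x y ⟨h1, h2⟩
    exact ⟨h1.symm, fun u v hu hv => (h2 v u hv hu).symm⟩⟩
  loopless := ⟨fun x h => h.1 rfl⟩

/-- picking `m` pairs of an involution without fixed points -/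
theorem exists_pairs {V : Type} (q : V → V) :
    ∀ (m : ℕ) (A : Finset V), (∀ v ∈ A, q v ∈ A ∧ q v ≠ v ∧ q (q v) = v) → 2 * m ≤ A.card →
      ∃ x : Fin m → V, (∀ i, x i ∈ A) ∧ ∀ i j, i ≠ j → x i ≠ x j ∧ x i ≠ q (x j) := by
  intro m
  induction m with
  | zero => intro A _ _; exact ⟨fun i => i.elim0, fun i => i.elim0, fun i => i.elim0⟩
  | succ m ih =>
    intro A hA hc
    have hne : A.Nonempty := by
      rw [← Finset.card_pos]; omega
    obtain ⟨v, hv⟩ := hne
    obtain ⟨h1, h2, h3⟩ := hA v hv
    have hmem : ∀ w ∈ (A.erase v).erase (q v), w ∈ A ∧ w ≠ v ∧ w ≠ q v := by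
      intro w hw
      rw [Finset.mem_erase, Finset.mem_erase] at hw
      exact ⟨hw.2.2, hw.2.1, hw.1⟩
    obtain ⟨x, hx1, hx2⟩ := ih ((A.erase v).erase (q v)) (by
      intro w hw
      obtain ⟨a1, a2, a3⟩ := hmem w hw
      obtain ⟨b1, b2, b3⟩ := hA w a1
      refine ⟨?_, b2, b3⟩
      rw [Finset.mem_erase, Finset.mem_erase]
      refine ⟨fun e => a2 ?_, fun e => a3 ?_, b1⟩
      · rw [← b3, e, h3]
      · rw [← b3, e]) (by
      rw [Finset.card_erase_of_mem (by rw [Finset.mem_erase]; exact ⟨h2, h1⟩),
        Finset.card_erase_of_mem hv]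
      omega)
    refine ⟨Fin.cons v x, ?_, ?_⟩
    · intro i
      refine Fin.cases hv (fun i => (hmem _ (hx1 i)).1) i
    · intro i j
      refine Fin.cases ?_ (fun i => ?_) i
      · refine Fin.cases ?_ (fun j => ?_) j
        · intro h; exact absurd rfl h
        · intro _
          obtain ⟨a1, a2, a3⟩ := hmem _ (hx1 j)
          obtain ⟨b1, b2, b3⟩ := hA _ a1
          refine ⟨a2.symm, fun e => a3 ?_⟩
          show x j = q v
          have : v = q (x j) := e
          rw [this, b3]
      · refine Fin.cases ?_ (fun j => ?_) j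
        · intro _
          obtain ⟨a1, a2, a3⟩ := hmem _ (hx1 i)
          exact ⟨a2, a3⟩
        · intro h
          exact hx2 i j (fun e => h (by rw [e]))

/-- a matching of `H` from a perfect matching of `H` with `t` universal vertices added -/
theorem pairs_of_perfect {V : Type} [Fintype V] {H : SimpleGraph V} {t m : ℕ}
    (ht : 2 * m + t ≤ Fintype.card V) {M : (addU H t).Subgraph} (hM : M.IsPerfectMatching) :
    ∃ x y : Fin m → V, (∀ i, H.Adj (x i) (y i)) ∧ (∀ i j, i ≠ j → x i ≠ x j ∧ y i ≠ y j) ∧
      ∀ i j, x i ≠ y j := by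
  rw [SimpleGraph.Subgraph.isPerfectMatching_iff] at hM
  choose p hp hp' using hM
  have hpp : ∀ x, p (p x) = x := fun x => (hp' (p x) x (hp x).symm).symm
  have hne : ∀ x, p x ≠ x := fun x e => (M.adj_sub (hp x)).1 e.symm
  let q : V → V := fun v => match p (Sum.inl v) with
    | Sum.inl w => w
    | Sum.inr _ => v
  have hq : ∀ v w, p (Sum.inl v) = Sum.inl w → q v = w := by
    intro v w h
    show (match p (Sum.inl v) with
    | Sum.inl w => w
    | Sum.inr _ => v) = w
    rw [h]
  let A : Finset V := univ.filter (fun v => ∃ w, p (Sum.inl v) = Sum.inl w)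
  have hA : ∀ v ∈ A, q v ∈ A ∧ q v ≠ v ∧ q (q v) = v := by
    intro v hv
    obtain ⟨w, hw⟩ := (Finset.mem_filter.1 hv).2
    have hw' : p (Sum.inl w) = Sum.inl v := by rw [← hw, hpp]
    rw [hq v w hw, hq w v hw']
    refine ⟨Finset.mem_filter.2 ⟨Finset.mem_univ _, v, hw'⟩, fun e => ?_, rfl⟩
    rw [e] at hw
    exact hne _ hw
  have hcard : (univ \ A).card ≤ t := by
    have : ∀ v ∈ univ \ A, ∃ d : Fin t, p (Sum.inl v) = Sum.inr d := by
      intro v hv
      rcases h : p (Sum.inl v) with w | d
      · exact absurd (Finset.mem_filter.2 ⟨Finset.mem_univ _, w, h⟩) (Finset.mem_sdiff.1 hv).2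
      · exact ⟨d, rfl⟩
    have hsub : (univ \ A).image (fun v => p (Sum.inl v)) ⊆ (univ : Finset (Fin t)).image Sum.inr := by
      intro z hz
      obtain ⟨v, hv, rfl⟩ := Finset.mem_image.1 hz
      obtain ⟨d, hd⟩ := this v hv
      exact Finset.mem_image.2 ⟨d, Finset.mem_univ _, hd.symm⟩
    have h1 := Finset.card_le_card hsub
    rw [Finset.card_image_of_injective _ (fun a b h => Sum.inl.inj (by
      have h4 := congrArg p h
      rwa [hpp, hpp] at h4)), Finset.card_image_of_injective _ Sum.inr_injective] at h1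
    simpa using h1
  have hA2 : 2 * m ≤ A.card := by
    have := Finset.card_sdiff_add_card_eq_card (Finset.subset_univ A)
    rw [Finset.card_univ] at this
    omega
  obtain ⟨x, hx1, hx2⟩ := exists_pairs q m A hA hA2
  refine ⟨x, fun i => q (x i), ?_, ?_, ?_⟩
  · intro i
    obtain ⟨w, hw⟩ := (Finset.mem_filter.1 (hx1 i)).2
    have h1 := M.adj_sub (hp (Sum.inl (x i)))
    rw [hw] at h1
    have h2 := h1.2 (x i) w rfl rfl
    show H.Adj (x i) (q (x i))
    rw [hq _ _ hw]
    exact h2
  · intro i j hij
    refine ⟨(hx2 i j hij).1, fun e => (hx2 i j hij).1 ?_⟩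
    have h1 := (hA _ (hx1 i)).2.2
    have h2 := (hA _ (hx1 j)).2.2
    rw [← h1, ← h2]
    exact congrArg q e
  · intro i j
    by_cases hij : i = j
    · subst hij
      exact fun e => (hA _ (hx1 i)).2.1 e.symm
    · exact (hx2 i j hij).2

/-- the graph left after deleting `u` -/
abbrev Del {W : Type} (K : SimpleGraph W) (u : Set W) :
    SimpleGraph ((⊤ : K.Subgraph).deleteVerts u).verts :=
  ((⊤ : K.Subgraph).deleteVerts u).coe

theorem del_adj {W : Type} {K : SimpleGraph W} {u : Set W} {a b : ((⊤ : K.Subgraph).deleteVerts u).verts}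
    (h : K.Adj a.1 b.1) : (Del K u).Adj a b := by
  have ha : a.1 ∉ u := a.2.2
  have hb : b.1 ∉ u := b.2.2
  show ((⊤ : K.Subgraph).deleteVerts u).Adj a.1 b.1
  rw [SimpleGraph.Subgraph.deleteVerts_adj]
  exact ⟨trivial, ha, trivial, hb, h⟩

/-- a Tutte violator of `addU H t` contains all added vertices if the number of vertices is even -/
theorem added_mem {V : Type} [Fintype V] {H : SimpleGraph V} {t : ℕ}
    (hev : Even (Fintype.card V + t)) {u : Set (V ⊕ Fin t)} (hu : (addU H t).IsTutteViolator u)
    (d : Fin t) : Sum.inr d ∈ u := by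
  by_contra hd
  unfold SimpleGraph.IsTutteViolator at hu
  set K := addU H t with hK
  have hall : ∀ x : ((⊤ : K.Subgraph).deleteVerts u).verts,
      (Del K u).Reachable ⟨Sum.inr d, trivial, hd⟩ x := by
    intro x
    by_cases hx : Sum.inr d = x.1
    · have : (⟨Sum.inr d, trivial, hd⟩ : ((⊤ : K.Subgraph).deleteVerts u).verts) = x := Subtype.ext hx
      rw [this]
    · refine (del_adj ?_).reachable
      refine ⟨hx, fun a b h => ?_⟩
      cases h
  have hsub : (Del K u).oddComponents.ncard ≤ 1 := by
    have h1 : (Del K u).oddComponents ⊆ {(Del K u).connectedComponentMk ⟨Sum.inr d, trivial, hd⟩} := by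
      intro c _
      induction c using SimpleGraph.ConnectedComponent.ind with
      | h x => exact (SimpleGraph.ConnectedComponent.sound (hall x)).symm
    exact (Set.ncard_le_ncard h1 (Set.finite_singleton _)).trans (Set.ncard_singleton _).le
  have h0 : u.ncard = 0 := by
    have := hu
    have h2 : ((⊤ : K.Subgraph).deleteVerts u).coe.oddComponents.ncard ≤ 1 := hsub
    omega
  have hu0 : u = ∅ := (Set.ncard_eq_zero (Set.toFinite u)).1 h0
  have h1 : ((⊤ : K.Subgraph).deleteVerts u).coe.oddComponents.ncard = 1 := by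
    have h2 : ((⊤ : K.Subgraph).deleteVerts u).coe.oddComponents.ncard ≤ 1 := hsub
    omega
  have hodd := (SimpleGraph.odd_ncard_oddComponents (Del K u)).1 (by
    show Odd ((⊤ : K.Subgraph).deleteVerts u).coe.oddComponents.ncard
    rw [h1]; exact odd_one)
  have hcard : Nat.card ((⊤ : K.Subgraph).deleteVerts u).verts = Fintype.card V + t := by
    have : ((⊤ : K.Subgraph).deleteVerts u).verts = Set.univ := by
      rw [SimpleGraph.Subgraph.deleteVerts_verts, hu0]
      simp
    rw [this]
    simp
  rw [hcard] at hodd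
  exact (Nat.not_odd_iff_even.2 hev) hodd

/-- Tutte-Berge: if every set `U` and every labelling constant on the components of `H - U` gives
the bound `m`, then `H` has a matching with `m` edges -/
theorem berge {V : Type} [Fintype V] (H : SimpleGraph V) (m : ℕ) (h2 : 2 * m ≤ Fintype.card V)
    (h : ∀ (U : Finset V) (I : Type) [Fintype I] (comp : V → I),
      (∀ u v, u ∉ U → v ∉ U → comp u ≠ comp v → ¬ H.Adj u v) →
      m ≤ U.card + ∑ i, (univ.filter (fun v => v ∉ U ∧ comp v = i)).card / 2) :
    ∃ x y : Fin m → V, (∀ i, H.Adj (x i) (y i)) ∧ (∀ i j, i ≠ j → x i ≠ x j ∧ y i ≠ y j) ∧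
      ∀ i j, x i ≠ y j := by
  set t := Fintype.card V - 2 * m with ht
  have hev : Even (Fintype.card V + t) := ⟨Fintype.card V - m, by omega⟩
  by_cases hpm : ∃ M : (addU H t).Subgraph, M.IsPerfectMatching
  · obtain ⟨M, hM⟩ := hpm
    exact pairs_of_perfect (by omega) hM
  · exfalso
    rw [SimpleGraph.tutte] at hpm
    push Not at hpm
    obtain ⟨u, hu⟩ := hpm
    have hin : ∀ d : Fin t, Sum.inr d ∈ u := added_mem hev hu
    unfold SimpleGraph.IsTutteViolator at hu
    set K := addU H t with hK
    let C : Type := (Del K u).ConnectedComponent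
    have : Fintype C := Fintype.ofFinite _
    let U : Finset V := univ.filter (fun v => Sum.inl v ∈ u)
    have hU : ∀ v, v ∈ U ↔ (Sum.inl v : V ⊕ Fin t) ∈ u := fun v => by simp [U]
    let comp : V → Option C := fun v => if hv : (Sum.inl v : V ⊕ Fin t) ∉ u then
      some ((Del K u).connectedComponentMk ⟨Sum.inl v, trivial, hv⟩) else none
    have hcomp : ∀ v (hv : (Sum.inl v : V ⊕ Fin t) ∉ u), comp v =
        some ((Del K u).connectedComponentMk ⟨Sum.inl v, trivial, hv⟩) := fun v hv => dif_pos hv
    have hb := h U (Option C) comp (by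
      intro a b ha hb hab hadj
      rw [hU] at ha hb
      apply hab
      rw [hcomp a ha, hcomp b hb]
      refine congrArg some (SimpleGraph.ConnectedComponent.sound (del_adj ?_).reachable)
      refine ⟨fun e => hadj.ne (Sum.inl.inj e), fun a' b' ea eb => ?_⟩
      cases ea; cases eb
      exact hadj)
    let s : C → ℕ := fun c => (univ.filter (fun v => v ∉ U ∧ comp v = some c)).card
    have hs : ∀ c : C, (c : (Del K u).ConnectedComponent).supp.ncard = s c := by
      intro c
      have h1 : (Subtype.val '' (c : (Del K u).ConnectedComponent).supp : Set (V ⊕ Fin t)) =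
          Sum.inl '' {v : V | v ∉ U ∧ comp v = some c} := by
        ext x
        constructor
        · rintro ⟨⟨x, hx1, hx2⟩, hx, rfl⟩
          rcases x with v | d
          · refine ⟨v, ⟨fun hv => hx2 ((hU v).1 hv), ?_⟩, rfl⟩
            rw [hcomp v hx2]
            exact congrArg some hx
          · exact absurd (hin d) hx2
        · rintro ⟨v, ⟨hv1, hv2⟩, rfl⟩
          rw [hU] at hv1
          rw [hcomp v hv1] at hv2
          exact ⟨⟨Sum.inl v, trivial, hv1⟩, Option.some.inj hv2, rfl⟩
      rw [← Set.ncard_image_of_injective _ Subtype.val_injective, h1,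
        Set.ncard_image_of_injective _ Sum.inl_injective]
      show _ = (univ.filter (fun v => v ∉ U ∧ comp v = some c)).card
      rw [← Set.ncard_coe_finset]
      congr 1
      ext v
      simp
    have hodd : ((⊤ : K.Subgraph).deleteVerts u).coe.oddComponents.ncard =
        (univ.filter (fun c : C => Odd (s c))).card := by
      rw [← Set.ncard_coe_finset]
      congr 1
      ext c
      have h1 := hs c
      constructor
      · intro h2
        have h2' : Odd c.supp.ncard := h2
        rw [Finset.coe_filter, Set.mem_setOf_eq]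
        exact ⟨Finset.mem_univ _, h1 ▸ h2'⟩
      · intro h2
        rw [Finset.coe_filter, Set.mem_setOf_eq] at h2
        show Odd c.supp.ncard
        exact h1.symm ▸ h2.2
    have hsum : ∑ c : C, s c = Fintype.card V - U.card := by
      have h1 : (univ \ U).card = ∑ c : C, s c := by
        rw [Finset.card_eq_sum_card_fiberwise (f := comp) (t := (univ : Finset (Option C)))
          (fun _ _ => Finset.mem_coe.2 (Finset.mem_univ _))]
        rw [Fintype.sum_option]
        have h0 : ((univ \ U).filter (fun v => comp v = none)).card = 0 := by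
          rw [Finset.card_eq_zero, Finset.filter_eq_empty_iff]
          intro v hv hn
          have hv' : (Sum.inl v : V ⊕ Fin t) ∉ u := fun e => (Finset.mem_sdiff.1 hv).2 ((hU v).2 e)
          rw [hcomp v hv'] at hn
          cases hn
        rw [h0, zero_add]
        refine Finset.sum_congr rfl (fun c _ => ?_)
        show _ = (univ.filter (fun v => v ∉ U ∧ comp v = some c)).card
        congr 1
        ext v
        simp
      rw [← h1, Finset.card_sdiff_of_subset (Finset.subset_univ U), Finset.card_univ]
    have hpar : ∑ c : C, s c = 2 * ∑ c : C, s c / 2 + (univ.filter (fun c : C => Odd (s c))).card := by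
      rw [Finset.card_filter, Finset.mul_sum, ← Finset.sum_add_distrib]
      refine Finset.sum_congr rfl (fun c _ => ?_)
      by_cases ho : Odd (s c)
      · rw [if_pos ho]
        have := Nat.odd_iff.1 ho
        omega
      · rw [if_neg ho]
        have := Nat.even_iff.1 (Nat.not_odd_iff_even.1 ho)
        omega
    have hucard : U.card + t ≤ u.ncard := by
      have h1 : ((U.disjSum (univ : Finset (Fin t)) : Finset (V ⊕ Fin t)) : Set (V ⊕ Fin t)) ⊆ u := by
        intro x hx
        rw [Finset.mem_coe, Finset.mem_disjSum] at hx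
        rcases hx with ⟨v, hv, rfl⟩ | ⟨d, _, rfl⟩
        · exact (hU v).1 hv
        · exact hin d
      have h3 := Set.ncard_le_ncard h1 (Set.toFinite u)
      rw [Set.ncard_coe_finset, Finset.card_disjSum, Finset.card_univ, Fintype.card_fin] at h3
      exact h3
    have hUle : U.card ≤ Fintype.card V := Finset.card_le_univ U
    rw [Fintype.sum_option] at hb
    have hnone : (univ.filter (fun v => v ∉ U ∧ comp v = none)).card = 0 := by
      rw [Finset.card_eq_zero, Finset.filter_eq_empty_iff]
      rintro v - ⟨hv, hn⟩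
      rw [hU] at hv
      rw [hcomp v hv] at hn
      cases hn
    have hb' : m ≤ U.card + (0 / 2 + ∑ c : C, s c / 2) := by
      rw [← hnone]
      convert hb
    rw [hodd] at hu
    omega

end Pool.Agent.T3
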