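import Mathlib
import Pool.Agent.CA72.MinCE

/-!
# Unions of three cliques: no small separations in contraction-critical graphs
-/

set_option autoImplicit false

namespace Pool.Agent.T3

open Finset
open scoped Classical

/-- minimum vertex covers of bipartite relations have partners -/
theorem koenig {V : Type} [Fintype V] (N : V → V → Prop) (hsymm : ∀ x y, N x y → N y x) (c : V → Bool)
    (hc : ∀ x y, N x y → c x ≠ c y) :
    ∃ W : Finset V, (∀ x y, N x y → x ∈ W ∨ y ∈ W) ∧
      ∃ p : V → V, (∀ w ∈ W, N w (p w) ∧ p w ∉ W) ∧ ∀ w ∈ W, ∀ w' ∈ W, p w = p w' → w = w' := by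
  obtain ⟨W, hW, hmin⟩ := Finset.exists_min_image (univ.filter (fun W : Finset V => ∀ x y, N x y → x ∈ W ∨ y ∈ W))
    (fun W => W.card) ⟨univ, by simp⟩
  simp only [mem_filter, mem_univ, true_and] at hW hmin
  have hside : ∀ t : Bool, ∃ p : V → V, (∀ w ∈ W.filter (fun w => c w = t), N w (p w) ∧ p w ∉ W) ∧
      ∀ w ∈ W.filter (fun w => c w = t), ∀ w' ∈ W.filter (fun w => c w = t), p w = p w' → w = w' := by
    intro t
    let T := W.filter (fun w => c w = t)
    let nb : {w : V // w ∈ T} → Finset V := fun w => univ.filter (fun y => N w.1 y ∧ y ∉ W)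
    have hall : ∀ s : Finset {w : V // w ∈ T}, s.card ≤ (s.biUnion nb).card := by
      intro s
      by_contra hcon
      push Not at hcon
      let X : Finset V := s.map (Function.Embedding.subtype _)
      have hX : X ⊆ T := by
        intro x hx
        rw [mem_map] at hx
        obtain ⟨y, -, rfl⟩ := hx
        exact y.2
      have hXc : X.card = s.card := card_map _
      have hcov : ∀ x y, N x y → x ∈ (W \ X) ∪ s.biUnion nb ∨ y ∈ (W \ X) ∪ s.biUnion nb := by
        have key : ∀ x y, N x y → x ∈ X → y ∉ W → y ∈ s.biUnion nb := by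
          intro x y hxy hx hy
          rw [mem_map] at hx
          obtain ⟨z, hz, rfl⟩ := hx
          rw [mem_biUnion]
          exact ⟨z, hz, mem_filter.2 ⟨mem_univ _, hxy, hy⟩⟩
        have hXX : ∀ x y, N x y → x ∈ X → y ∈ X → False := by
          intro x y hxy hx hy
          exact hc x y hxy ((mem_filter.1 (hX hx)).2.trans (mem_filter.1 (hX hy)).2.symm)
        intro x y hxy
        simp only [mem_union, mem_sdiff]
        by_cases hxX : x ∈ X
        · by_cases hyW : y ∈ W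
          · exact Or.inr (Or.inl ⟨hyW, fun hy => hXX x y hxy hxX hy⟩)
          · exact Or.inr (Or.inr (key x y hxy hxX hyW))
        · by_cases hxW : x ∈ W
          · exact Or.inl (Or.inl ⟨hxW, hxX⟩)
          · rcases hW x y hxy with h | h
            · exact absurd h hxW
            · by_cases hyX : y ∈ X
              · exact Or.inl (Or.inr (key y x (hsymm x y hxy) hyX hxW))
              · exact Or.inr (Or.inl ⟨h, hyX⟩)
      have h1 := hmin _ hcov
      have h2 := card_union_le (W \ X) (s.biUnion nb)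
      have h3 : X ⊆ W := hX.trans (filter_subset _ _)
      have h4 := card_sdiff_of_subset h3
      have h5 := card_le_card h3
      have h6 : 0 < s.card := by omega
      omega
    obtain ⟨f, hf, hft⟩ := (Finset.all_card_le_biUnion_card_iff_exists_injective nb).1 hall
    let q : V → V := fun w => if h : w ∈ T then f ⟨w, h⟩ else w
    have hq : ∀ w (hw : w ∈ T), q w = f ⟨w, hw⟩ := fun w hw => dif_pos hw
    refine ⟨q, ?_, ?_⟩
    · intro w hw
      rw [hq w hw]
      exact (mem_filter.1 (hft ⟨w, hw⟩)).2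
    · intro w hw w' hw' h
      rw [hq w hw, hq w' hw'] at h
      have := hf h
      simpa using this
  obtain ⟨p1, h1, h1'⟩ := hside true
  obtain ⟨p2, h2, h2'⟩ := hside false
  refine ⟨W, hW, fun w => if c w = true then p1 w else p2 w, ?_, ?_⟩
  · intro w hw
    by_cases h : c w = true
    · simp only [if_pos h]; exact h1 w (mem_filter.2 ⟨hw, h⟩)
    · simp only [if_neg h]; exact h2 w (mem_filter.2 ⟨hw, by simpa using h⟩)
  · intro w hw w' hw' he
    by_cases h : c w = true
    · by_cases h' : c w' = true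
      · simp only [if_pos h, if_pos h'] at he
        exact h1' w (mem_filter.2 ⟨hw, h⟩) w' (mem_filter.2 ⟨hw', h'⟩) he
      · exfalso
        simp only [if_pos h, if_neg h'] at he
        have e1 := hc _ _ (h1 w (mem_filter.2 ⟨hw, h⟩)).1
        have e2 := hc _ _ (h2 w' (mem_filter.2 ⟨hw', by simpa using h'⟩)).1
        rw [he] at e1
        have h'' : c w' = false := by simpa using h'
        rw [h] at e1; rw [h''] at e2
        cases hp : c (p2 w') <;> simp_all
    · by_cases h' : c w' = true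
      · exfalso
        simp only [if_neg h, if_pos h'] at he
        have e1 := hc _ _ (h2 w (mem_filter.2 ⟨hw, by simpa using h⟩)).1
        have e2 := hc _ _ (h1 w' (mem_filter.2 ⟨hw', h'⟩)).1
        rw [he] at e1
        have h'' : c w = false := by simpa using h
        rw [h''] at e1; rw [h'] at e2
        cases hp : c (p1 w') <;> simp_all
      · simp only [if_neg h, if_neg h'] at he
        exact h2' w (mem_filter.2 ⟨hw, by simpa using h⟩) w' (mem_filter.2 ⟨hw', by simpa using h'⟩) he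

/-- a set with a vertex adjacent to all the others is connected -/
theorem star_conn {V : Type} {G : SimpleGraph V} {X : Set V} {z : V} (hz : z ∈ X) (h : ∀ x ∈ X, x ≠ z → G.Adj z x) :
    (G.induce X).Connected := by
  have hr : ∀ x (hx : x ∈ X), (G.induce X).Reachable ⟨z, hz⟩ ⟨x, hx⟩ := by
    intro x hx
    by_cases hxz : x = z
    · subst hxz; exact SimpleGraph.Reachable.refl _
    · exact SimpleGraph.Adj.reachable (show (G.induce X).Adj ⟨z, hz⟩ ⟨x, hx⟩ from h x hx hxz)
  refine (SimpleGraph.connected_iff _).2 ⟨?_, ⟨⟨z, hz⟩⟩⟩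
  rintro ⟨u, hu⟩ ⟨v, hv⟩
  exact (hr u hu).symm.trans (hr v hv)

/-- `φ` is a proper colouring outside `B` -/
def Pr {V : Type} (G : SimpleGraph V) (B : Finset V) {k : ℕ} (φ : V → Fin k) : Prop :=
  ∀ u v, u ∉ B → v ∉ B → G.Adj u v → φ u ≠ φ v

/-- the separation theorem when `A` lies in one clique -/
theorem sep_aux {V : Type} [Fintype V] {G : SimpleGraph V} (cl : V → Fin 3)
    (hcl : ∀ u v, u ≠ v → cl u = cl v → G.Adj u v) {k : ℕ} (hnc : ¬ G.Colorable k) (hcc : CA72.ConCrit G k)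
    {A B S : Finset V} (hAB : Disjoint A B) (hAS : Disjoint A S) (hBS : Disjoint B S) (hcov : ∀ v, v ∈ A ∨ v ∈ B ∨ v ∈ S)
    (hA : A.Nonempty) (hB : B.Nonempty) (hno : ∀ a ∈ A, ∀ b ∈ B, ¬ G.Adj a b)
    {i0 : Fin 3} (hAi : ∀ a ∈ A, cl a = i0) : k + 1 ≤ S.card := by
  by_contra hcon
  have hSk : S.card ≤ k := by omega
  rw [Finset.disjoint_left] at hAB hAS hBS
  obtain ⟨a0, ha0⟩ := hA
  obtain ⟨b0, hb0⟩ := hB
  have hAcl : ∀ a ∈ A, ∀ a' ∈ A, a ≠ a' → G.Adj a a' := fun a ha a' ha' h =>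
    hcl a a' h ((hAi a ha).trans (hAi a' ha').symm)
  -- a colouring outside B
  obtain ⟨φ0, hφ0⟩ : ∃ φ : V → Fin k, Pr G B φ := by
    have hcard : Fintype.card {v : V // v ∉ B} < Fintype.card V := by
      apply Fintype.card_subtype_lt (x := b0)
      simpa using hb0
    obtain ⟨C⟩ := hcc {v : V // v ∉ B} (fun i => {i.1}) (fun i => CA72.singleton_conn G i.1)
      (fun i j hij => by
        rw [Set.disjoint_singleton]
        exact fun e => hij (Subtype.ext e)) hcard
    have ha0B : a0 ∉ B := fun h => hAB ha0 h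
    refine ⟨fun v => if hv : v ∉ B then C ⟨v, hv⟩ else C ⟨a0, ha0B⟩, ?_⟩
    intro u v hu hv huv
    simp only [dif_pos hu, dif_pos hv]
    refine C.valid ⟨fun e => huv.ne (Subtype.ext_iff.1 e), u, rfl, v, rfl, huv⟩
  obtain ⟨φ, hφm, hmax⟩ := Finset.exists_max_image (univ.filter (fun φ : V → Fin k => Pr G B φ))
    (fun φ => (S.image φ).card) ⟨φ0, by simp [hφ0]⟩
  have hφ : Pr G B φ := (mem_filter.1 hφm).2
  have hmax' : ∀ φ' : V → Fin k, Pr G B φ' → (S.image φ').card ≤ (S.image φ).card :=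
    fun φ' h => hmax φ' (mem_filter.2 ⟨mem_univ _, h⟩)
  have hAB' : ∀ a ∈ A, a ∉ B := fun a ha h => hAB ha h
  have hSB' : ∀ s ∈ S, s ∉ B := fun s hs h => hBS h hs
  have huniq : ∀ a ∈ A, ∀ a' ∈ A, φ a = φ a' → a = a' := by
    intro a ha a' ha' h
    by_contra hne
    exact hφ a a' (hAB' a ha) (hAB' a' ha') (hAcl a ha a' ha' hne) h
  let R : Finset (Fin k) := S.image φ
  have hR : ∀ s ∈ S, φ s ∈ R := fun s hs => mem_image_of_mem φ hs
  let Mu : Finset (Fin k) := R.filter (fun j => ∃ s ∈ S, ∃ s' ∈ S, s ≠ s' ∧ φ s = j ∧ φ s' = j)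
  have hMu : ∀ j, j ∈ Mu ↔ ∃ s ∈ S, ∃ s' ∈ S, s ≠ s' ∧ φ s = j ∧ φ s' = j := by
    intro j
    simp only [Mu, mem_filter]
    constructor
    · rintro ⟨-, h⟩; exact h
    · rintro ⟨s, hs, s', hs', h1, h2, h3⟩
      exact ⟨h2 ▸ hR s hs, s, hs, s', hs', h1, h2, h3⟩
  -- (1)
  have step1 : ∀ j ∈ Mu, ∀ j' ∉ R, ∃ a ∈ A, φ a = j' ∧ ∀ s ∈ S, φ s = j → G.Adj a s := by
    intro j hj j' hj'
    by_contra hcon
    push Not at hcon
    obtain ⟨s1, hs1, s2, hs2, h12, hj1, hj2⟩ := (hMu j).1 hj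
    -- a vertex to recolour
    obtain ⟨s, hs, hsj, hsA⟩ : ∃ s ∈ S, φ s = j ∧ ∀ a ∈ A, φ a = j' → ¬ G.Adj a s := by
      by_cases hex : ∃ a ∈ A, φ a = j'
      · obtain ⟨a, ha, haj⟩ := hex
        obtain ⟨s, hs, hsj, hsa⟩ := hcon a ha haj
        refine ⟨s, hs, hsj, fun a' ha' haj' => ?_⟩
        rw [huniq a' ha' a ha (haj'.trans haj.symm)]
        exact hsa
      · push Not at hex
        exact ⟨s1, hs1, hj1, fun a ha haj => absurd haj (hex a ha)⟩
    have hpr : Pr G B (Function.update φ s j') := by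
      have key : ∀ u, u ∉ B → u ≠ s → G.Adj s u → φ u ≠ j' := by
        intro u hu hus hsu h
        rcases hcov u with h1 | h1 | h1
        · exact hsA u h1 h hsu.symm
        · exact hu h1
        · exact hj' (h ▸ hR u h1)
      intro u v hu hv huv
      by_cases h1 : u = s
      · subst h1
        rw [Function.update_self, Function.update_of_ne huv.ne']
        exact (key v hv huv.ne' huv).symm
      · by_cases h2 : v = s
        · subst h2
          rw [Function.update_self, Function.update_of_ne h1]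
          exact key u hu h1 huv.symm
        · rw [Function.update_of_ne h1, Function.update_of_ne h2]
          exact hφ u v hu hv huv
    have h3 := hmax' _ hpr
    have h4 : insert j' R ⊆ S.image (Function.update φ s j') := by
      intro x hx
      rw [mem_insert] at hx
      rw [mem_image]
      rcases hx with rfl | hx
      · exact ⟨s, hs, Function.update_self _ _ _⟩
      · obtain ⟨y, hy, hyx⟩ := mem_image.1 hx
        by_cases hys : y = s
        · -- use the other vertex of the class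
          subst hys
          by_cases h5 : s1 = y
          · refine ⟨s2, hs2, ?_⟩
            rw [Function.update_of_ne (fun h => h12 (h5.trans h.symm)), hj2, ← hsj, hyx]
          · refine ⟨s1, hs1, ?_⟩
            rw [Function.update_of_ne h5, hj1, ← hsj, hyx]
        · exact ⟨y, hy, by rw [Function.update_of_ne hys]; exact hyx⟩
    have h5 := card_le_card h4
    rw [card_insert_of_notMem hj'] at h5
    have h6 : R.card = (S.image φ).card := rfl
    omega
  -- the injection of the multiple colours into the unused ones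
  have hcount : R.card + Mu.card ≤ S.card := by
    have h1 : S.card = ∑ j ∈ R, (S.filter (fun s => φ s = j)).card :=
      Finset.card_eq_sum_card_image φ S
    have h2 : R.card + Mu.card = ∑ j ∈ R, (1 + (if j ∈ Mu then 1 else 0)) := by
      rw [Finset.sum_add_distrib]
      simp only [sum_const, smul_eq_mul, mul_one]
      congr 1
      rw [Finset.sum_ite_mem, sum_const, smul_eq_mul, mul_one]
      congr 1
      exact (inter_eq_right.2 (filter_subset _ _)).symm
    rw [h1, h2]
    apply Finset.sum_le_sum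
    intro j hj
    by_cases hm : j ∈ Mu
    · rw [if_pos hm]
      obtain ⟨s, hs, s', hs', hne, h3, h4⟩ := (hMu j).1 hm
      have : 1 < (S.filter (fun s => φ s = j)).card :=
        Finset.one_lt_card.2 ⟨s, mem_filter.2 ⟨hs, h3⟩, s', mem_filter.2 ⟨hs', h4⟩, hne⟩
      omega
    · rw [if_neg hm]
      obtain ⟨s, hs, hsj⟩ := mem_image.1 hj
      have : 0 < (S.filter (fun s => φ s = j)).card := card_pos.2 ⟨s, mem_filter.2 ⟨hs, hsj⟩⟩
      omega
  obtain ⟨ι, hι1, hι2⟩ : ∃ ι : Fin k → Fin k, (∀ j ∈ Mu, ι j ∉ R) ∧ ∀ j ∈ Mu, ∀ j' ∈ Mu, ι j = ι j' → j = j' := by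
    have hle : Fintype.card {j // j ∈ Mu} ≤ Fintype.card {j // j ∈ Rᶜ} := by
      rw [Fintype.card_coe, Fintype.card_coe, card_compl, Fintype.card_fin]
      omega
    obtain ⟨e⟩ := Function.Embedding.nonempty_of_card_le hle
    let q : Fin k → Fin k := fun j => if h : j ∈ Mu then (e ⟨j, h⟩ : Fin k) else j
    have hq : ∀ j (h : j ∈ Mu), q j = e ⟨j, h⟩ := fun j h => dif_pos h
    refine ⟨q, ?_, ?_⟩
    · intro j hj
      rw [hq j hj]
      exact mem_compl.1 (e ⟨j, hj⟩).2
    · intro j hj j' hj' h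
      rw [hq j hj, hq j' hj'] at h
      have := e.injective (Subtype.ext h)
      simpa using this
  -- (2) the relation N on single vertices
  let Sg : V → Prop := fun s => s ∈ S ∧ ∀ s' ∈ S, φ s' = φ s → s' = s
  let N : V → V → Prop := fun x y => Sg x ∧ Sg y ∧ ¬ G.Adj x y ∧ (∃ a ∈ A, φ a = φ x ∧ G.Adj a y) ∧
    (∃ a ∈ A, φ a = φ y ∧ G.Adj a x)
  have hNsymm : ∀ x y, N x y → N y x := by
    rintro x y ⟨h1, h2, h3, h4, h5⟩
    exact ⟨h2, h1, fun h => h3 h.symm, h5, h4⟩
  have hNφ : ∀ x y, N x y → φ x ≠ φ y := by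
    rintro x y ⟨h1, h2, h3, ⟨a, ha, ha1, ha2⟩, -⟩ he
    exact hφ a y (hAB' a ha) (hSB' y h2.1) ha2 (ha1.trans he)
  have hNi0 : ∀ x y, N x y → cl x ≠ i0 := by
    rintro x y ⟨h1, h2, h3, ⟨a, ha, ha1, ha2⟩, -⟩ he
    exact hφ a x (hAB' a ha) (hSB' x h1.1) (hcl a x (fun h => hAS ha (h ▸ h1.1)) ((hAi a ha).trans he.symm)) ha1
  have hNcl : ∀ x y, N x y → cl x ≠ cl y := by
    intro x y h he
    exact h.2.2.1 (hcl x y (fun h' => hNφ x y h (by rw [h'])) he)
  obtain ⟨W, hW, p, hp, hpinj⟩ := koenig N hNsymm (fun v => decide (cl v = i0 + 1)) (by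
    intro x y h he
    have h1 := hNi0 x y h
    have h2 := hNi0 y x (hNsymm x y h)
    have h3 := hNcl x y h
    have key : ∀ a b c : Fin 3, b ≠ a → c ≠ a → b ≠ c → (decide (b = a + 1) = decide (c = a + 1)) → False := by decide
    exact key i0 (cl x) (cl y) h1 h2 h3 he)
  -- (3) colours of the additional vertices of the bag of colour j
  let Γ : Fin k → Set (Fin k) := fun j => {q | (j ∈ Mu ∧ q = ι j) ∨ (∃ w ∈ W, φ w = j ∧ (q = φ w ∨ q = φ (p w)))}
  have hWS : ∀ w ∈ W, Sg w := fun w hw => (hp w hw).1.1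
  have hpS : ∀ w ∈ W, Sg (p w) := fun w hw => (hp w hw).1.2.1
  have hSgMu : ∀ s, Sg s → φ s ∉ Mu := by
    intro s hs hm
    obtain ⟨s1, hs1, s2, hs2, hne, h1, h2⟩ := (hMu _).1 hm
    exact hne ((hs.2 s1 hs1 h1).trans (hs.2 s2 hs2 h2).symm)
  have hΓ : ∀ j j' q, q ∈ Γ j → q ∈ Γ j' → j = j' := by
    have cross : ∀ j w q, j ∈ Mu → w ∈ W → q = ι j → (q = φ w ∨ q = φ (p w)) → False := by
      intro j w q hj hw h1 h2
      rcases h2 with h2 | h2
      · exact hι1 j hj (h1 ▸ h2 ▸ hR w (hWS w hw).1)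
      · exact hι1 j hj (h1 ▸ h2 ▸ hR (p w) (hpS w hw).1)
    rintro j j' q (⟨hj, h1⟩ | ⟨w, hw, hwj, h1⟩) (⟨hj', h1'⟩ | ⟨w', hw', hwj', h1'⟩)
    · exact hι2 j hj j' hj' (h1.symm.trans h1')
    · exact (cross j w' q hj hw' h1 h1').elim
    · exact (cross j' w q hj' hw h1' h1).elim
    · rw [← hwj, ← hwj']
      rcases h1 with h1 | h1 <;> rcases h1' with h1' | h1'
      · exact h1.symm.trans h1'
      · -- w = p w'
        exfalso
        have := (hpS w' hw').2 w (hWS w hw).1 (h1.symm.trans h1')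
        exact (hp w' hw').2 (this ▸ hw)
      · exfalso
        have := (hpS w hw).2 w' (hWS w' hw').1 (h1'.symm.trans h1)
        exact (hp w hw).2 (this ▸ hw')
      · have h2 := (hpS w' hw').2 (p w) (hpS w hw).1 (h1.symm.trans h1')
        rw [hpinj w hw w' hw' h2]
  -- the bags
  let f : {v : V // v ∈ B} ⊕ {j : Fin k // j ∈ R} → Set V := fun i => match i with
    | Sum.inl b => {b.1}
    | Sum.inr j => {v | (v ∈ S ∧ φ v = j.1) ∨ (v ∈ A ∧ φ v ∈ Γ j.1)}
  have hfl : ∀ b, f (Sum.inl b) = {b.1} := fun b => rfl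
  have hfr : ∀ j, f (Sum.inr j) = {v | (v ∈ S ∧ φ v = j.1) ∨ (v ∈ A ∧ φ v ∈ Γ j.1)} := fun j => rfl
  have hconn : ∀ i, (G.induce (f i)).Connected := by
    rintro (b | ⟨j, hj⟩)
    · exact CA72.singleton_conn G b.1
    · rw [hfr]
      by_cases hm : j ∈ Mu
      · obtain ⟨a, ha, ha1, ha2⟩ := step1 j hm (ι j) (hι1 j hm)
        refine star_conn (z := a) (Or.inr ⟨ha, Or.inl ⟨hm, ha1⟩⟩) ?_
        rintro x (⟨hx, hxj⟩ | ⟨hx, hxΓ⟩) hxa
        · exact ha2 x hx hxj
        · exact hAcl a ha x hx (Ne.symm hxa)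
      · obtain ⟨s, hs, hsj⟩ := mem_image.1 hj
        have hsg : Sg s := by
          refine ⟨hs, fun s' hs' he => ?_⟩
          by_contra hne
          exact hm ((hMu j).2 ⟨s', hs', s, hs, hne, he.trans hsj, hsj⟩)
        by_cases hw : s ∈ W
        · obtain ⟨-, -, -, -, a, ha, ha1, ha2⟩ := (hp s hw).1
          -- a has the colour of the partner and is adjacent to s
          refine star_conn (z := a) (Or.inr ⟨ha, Or.inr ⟨s, hw, hsj, Or.inr ha1⟩⟩) ?_
          rintro x (⟨hx, hxj⟩ | ⟨hx, hxΓ⟩) hxa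
          · rw [hsg.2 x hx (hxj.trans hsj.symm)]; exact ha2
          · exact hAcl a ha x hx (Ne.symm hxa)
        · refine star_conn (z := s) (Or.inl ⟨hs, hsj⟩) ?_
          rintro x (⟨hx, hxj⟩ | ⟨hx, hxΓ⟩) hxs
          · exact absurd (hsg.2 x hx (hxj.trans hsj.symm)) hxs
          · exfalso
            rcases hxΓ with ⟨h1, -⟩ | ⟨w, hw', hwj, -⟩
            · exact hm h1
            · have := hsg.2 w (hWS w hw').1 (hwj.trans hsj.symm)
              exact hw (this ▸ hw')
  have hdisj : ∀ i j, i ≠ j → Disjoint (f i) (f j) := by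
    have hlr : ∀ (b : {v : V // v ∈ B}) (j : {j : Fin k // j ∈ R}), Disjoint (f (Sum.inl b)) (f (Sum.inr j)) := by
      intro b j
      rw [Set.disjoint_left]
      rintro x hx (⟨hx', -⟩ | ⟨hx', -⟩)
      · have : x = b.1 := hx
        exact hBS b.2 (this ▸ hx')
      · have : x = b.1 := hx
        exact hAB (this ▸ hx') b.2
    rintro (b | j) (b' | j') hne
    · rw [hfl, hfl, Set.disjoint_singleton]
      exact fun h => hne (congrArg Sum.inl (Subtype.ext h))
    · exact hlr b j'
    · exact (hlr b' j).symm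
    · rw [Set.disjoint_left]
      rintro x (⟨hx, hx1⟩ | ⟨hx, hx1⟩) (⟨hx', hx1'⟩ | ⟨hx', hx1'⟩)
      · exact hne (congrArg Sum.inr (Subtype.ext (hx1.symm.trans hx1')))
      · exact hAS hx' hx
      · exact hAS hx hx'
      · exact hne (congrArg Sum.inr (Subtype.ext (hΓ _ _ _ hx1 hx1')))
  have hcardI : Fintype.card ({v : V // v ∈ B} ⊕ {j : Fin k // j ∈ R}) < Fintype.card V := by
    rw [Fintype.card_sum, Fintype.card_coe, Fintype.card_coe]
    have h1 : (B ∪ S).card = B.card + S.card := card_union_of_disjoint (by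
      rw [Finset.disjoint_left]; intro x h h'; exact hBS h h')
    have h2 : B ∪ S ⊆ univ.erase a0 := by
      intro x hx
      rw [mem_erase]
      refine ⟨?_, mem_univ _⟩
      rintro rfl
      rw [mem_union] at hx
      rcases hx with hx | hx
      · exact hAB ha0 hx
      · exact hAS ha0 hx
    have h3 := card_le_card h2
    rw [card_erase_of_mem (mem_univ _), card_univ, h1] at h3
    have h4 : 0 < Fintype.card V := Fintype.card_pos_iff.2 ⟨a0⟩
    have h5 : R.card ≤ S.card := card_image_le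
    omega
  obtain ⟨C⟩ := hcc _ f hconn hdisj hcardI
  -- the colouring psi of B and S
  let ψ : V → Fin k := fun v => if h : v ∈ B then C (Sum.inl ⟨v, h⟩) else if h' : v ∈ S then C (Sum.inr ⟨φ v, hR v h'⟩)
    else φ v
  have hψB : ∀ v (h : v ∈ B), ψ v = C (Sum.inl ⟨v, h⟩) := fun v h => dif_pos h
  have hψS : ∀ v (h : v ∈ S), ψ v = C (Sum.inr ⟨φ v, hR v h⟩) := by
    intro v h
    show (if h : v ∈ B then _ else _) = _
    rw [dif_neg (hSB' v h), dif_pos h]
  have hψφ : ∀ s ∈ S, ∀ s' ∈ S, φ s = φ s' → ψ s = ψ s' := by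
    intro s hs s' hs' h
    rw [hψS s hs, hψS s' hs']
    congr 2
    exact Subtype.ext h
  have hmemS : ∀ s (hs : s ∈ S), s ∈ f (Sum.inr ⟨φ s, hR s hs⟩) := fun s hs => Or.inl ⟨hs, rfl⟩
  have hψSS : ∀ s ∈ S, ∀ s' ∈ S, G.Adj s s' → ψ s ≠ ψ s' := by
    intro s hs s' hs' h
    rw [hψS s hs, hψS s' hs']
    refine C.valid ⟨fun e => ?_, s, hmemS s hs, s', hmemS s' hs', h⟩
    have e1 : φ s = φ s' := congrArg Subtype.val (Sum.inr_injective e)
    exact hφ s s' (hSB' s hs) (hSB' s' hs') h e1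
  have hψSB : ∀ s ∈ S, ∀ b ∈ B, G.Adj s b → ψ s ≠ ψ b := by
    intro s hs b hb h
    rw [hψS s hs, hψB b hb]
    exact C.valid ⟨Sum.inr_ne_inl, s, hmemS s hs, b, rfl, h⟩
  have hψBB : ∀ b ∈ B, ∀ b' ∈ B, G.Adj b b' → ψ b ≠ ψ b' := by
    intro b hb b' hb' h
    rw [hψB b hb, hψB b' hb']
    refine C.valid ⟨fun e => ?_, b, rfl, b', rfl, h⟩
    exact h.ne (congrArg Subtype.val (Sum.inl_injective e))
  have hψN : ∀ x y, N x y → ψ x ≠ ψ y := by
    have key : ∀ x y, N x y → x ∈ W → ψ x ≠ ψ y := by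
      intro x y h hx
      have hne := hNφ x y h
      obtain ⟨h1, h2, h3, ⟨a, ha, ha1, ha2⟩, h5⟩ := h
      rw [hψS x h1.1, hψS y h2.1]
      refine C.valid ⟨fun e => ?_, a, Or.inr ⟨ha, Or.inr ⟨x, hx, rfl, Or.inl ha1⟩⟩, y, hmemS y h2.1, ha2⟩
      exact hne (congrArg Subtype.val (Sum.inr_injective e))
    intro x y h
    rcases hW x y h with h1 | h1
    · exact key x y h h1
    · exact (key y x (hNsymm x y h) h1).symm
  -- (4) representatives
  have hrep : ∀ q ∈ S.image ψ, ∃ s0 ∈ S, ψ s0 = q ∧ ∀ a ∈ A, φ a = φ s0 → ∀ s ∈ S, ψ s = q → ¬ G.Adj a s := by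
    intro q hq
    obtain ⟨x, hx, hxq⟩ := mem_image.1 hq
    by_cases hex : ∃ s ∈ S, ψ s = q ∧ cl s = i0
    · obtain ⟨s, hs, hsq, hsi⟩ := hex
      refine ⟨s, hs, hsq, fun a ha he => ?_⟩
      exfalso
      exact hφ a s (hAB' a ha) (hSB' s hs) (hcl a s (fun h => hAS ha (h ▸ hs)) ((hAi a ha).trans hsi.symm)) he
    push Not at hex
    by_cases hall : ∀ s ∈ S, ψ s = q → φ s = φ x
    · refine ⟨x, hx, hxq, fun a ha he s hs hsq hadj => ?_⟩
      exact hφ a s (hAB' a ha) (hSB' s hs) hadj (he.trans (hall s hs hsq).symm)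
    push Not at hall
    obtain ⟨y, hy, hyq, hyx⟩ := hall
    have hcxy : cl x ≠ cl y := by
      intro h
      exact hψSS x hx y hy (hcl x y (fun e => hyx (by rw [e])) h) (hxq.trans hyq.symm)
    have hT : ∀ s ∈ S, ψ s = q → s = x ∨ s = y := by
      intro s hs hsq
      have key : ∀ a b c d : Fin 3, b ≠ a → c ≠ a → b ≠ c → d ≠ a → d = b ∨ d = c := by decide
      rcases key i0 (cl x) (cl y) (cl s) (hex x hx hxq) (hex y hy hyq) hcxy (hex s hs hsq) with h | h
      · left
        by_contra hne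
        exact hψSS s hs x hx (hcl s x hne h) (hsq.trans hxq.symm)
      · right
        by_contra hne
        exact hψSS s hs y hy (hcl s y hne h) (hsq.trans hyq.symm)
    have hsx : Sg x := by
      refine ⟨hx, fun s' hs' he => ?_⟩
      rcases hT s' hs' ((hψφ s' hs' x hx he).trans hxq) with h | h
      · exact h
      · rw [h] at he; exact absurd he hyx
    have hsy : Sg y := by
      refine ⟨hy, fun s' hs' he => ?_⟩
      rcases hT s' hs' ((hψφ s' hs' y hy he).trans hyq) with h | h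
      · rw [h] at he; exact absurd he.symm hyx
      · exact h
    have hnN : ¬ N x y := fun h => hψN x y h (hxq.trans hyq.symm)
    have hnadj : ¬ G.Adj x y := fun h => hψSS x hx y hy h (hxq.trans hyq.symm)
    by_cases h1 : ∃ a ∈ A, φ a = φ x ∧ G.Adj a y
    · have h2 : ¬ ∃ a ∈ A, φ a = φ y ∧ G.Adj a x := fun h => hnN ⟨hsx, hsy, hnadj, h1, h⟩
      push Not at h2
      refine ⟨y, hy, hyq, fun a ha he s hs hsq hadj => ?_⟩
      rcases hT s hs hsq with h | h
      · rw [h] at hadj; exact h2 a ha he hadj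
      · rw [h] at hadj; exact hφ a y (hAB' a ha) (hSB' y hy) hadj he
    · push Not at h1
      refine ⟨x, hx, hxq, fun a ha he s hs hsq hadj => ?_⟩
      rcases hT s hs hsq with h | h
      · rw [h] at hadj; exact hφ a x (hAB' a ha) (hSB' x hx) hadj he
      · rw [h] at hadj; exact h1 a ha he hadj
  -- (5) the permutation
  have hneV : Nonempty V := ⟨a0⟩
  choose! s0 hs0S hs0ψ hs0A using hrep
  let ρ : Fin k → Fin k := fun q => φ (s0 q)
  have hρinj : Set.InjOn ρ (S.image ψ : Finset (Fin k)) := by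
    intro q hq q' hq' h
    rw [mem_coe] at hq hq'
    rw [← hs0ψ q hq, ← hs0ψ q' hq']
    exact hψφ _ (hs0S q hq) _ (hs0S q' hq') h
  obtain ⟨τ, hτ⟩ := Finset.exists_equiv_extend_of_card_eq (t := (univ : Finset (Fin k))) (by simp)
    (s := S.image ψ) (f := ρ) (subset_univ _) hρinj
  let σ : Fin k → Fin k := fun j => τ.symm ⟨j, mem_univ _⟩
  have hσinj : ∀ j j', σ j = σ j' → j = j' := by
    intro j j' h
    have := τ.symm.injective h
    simpa using this
  have hσρ : ∀ q ∈ S.image ψ, ∀ j, σ j = q → j = φ (s0 q) := by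
    intro q hq j h
    have h1 : τ q = ⟨j, mem_univ _⟩ := by rw [← h]; simp [σ]
    have h2 := hτ q hq
    rw [h1] at h2
    exact h2
  refine hnc ⟨SimpleGraph.Coloring.mk (fun v => if v ∈ A then σ (φ v) else ψ v) ?_⟩
  have keyAS : ∀ a ∈ A, ∀ s ∈ S, G.Adj a s → σ (φ a) ≠ ψ s := by
    intro a ha s hs hadj he
    have hq : ψ s ∈ S.image ψ := mem_image_of_mem _ hs
    exact hs0A (ψ s) hq a ha (hσρ (ψ s) hq (φ a) he) s hs rfl hadj
  intro u v huv
  show (if u ∈ A then σ (φ u) else ψ u) ≠ (if v ∈ A then σ (φ v) else ψ v)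
  by_cases hu : u ∈ A
  · rw [if_pos hu]
    by_cases hv : v ∈ A
    · rw [if_pos hv]
      intro h
      exact huv.ne (huniq u hu v hv (hσinj _ _ h))
    · rw [if_neg hv]
      rcases hcov v with h | h | h
      · exact absurd h hv
      · exact absurd huv (hno u hu v h)
      · exact keyAS u hu v h huv
  · rw [if_neg hu]
    by_cases hv : v ∈ A
    · rw [if_pos hv]
      rcases hcov u with h | h | h
      · exact absurd h hu
      · exact absurd huv.symm (hno v hv u h)
      · exact (keyAS v hv u h huv.symm).symm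
    · rw [if_neg hv]
      rcases hcov u with h | h | h
      · exact absurd h hu
      · rcases hcov v with h' | h' | h'
        · exact absurd h' hv
        · exact hψBB u h v h' huv
        · exact (hψSB v h' u h huv.symm).symm
      · rcases hcov v with h' | h' | h'
        · exact absurd h' hv
        · exact hψSB u h v h' huv
        · exact hψSS u h v h' huv

/-- SEPARATION THEOREM for unions of three cliques -/
theorem sep {V : Type} [Fintype V] {G : SimpleGraph V} (cl : V → Fin 3)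
    (hcl : ∀ u v, u ≠ v → cl u = cl v → G.Adj u v) {k : ℕ} (hnc : ¬ G.Colorable k) (hcc : CA72.ConCrit G k)
    (A B : Finset V) (hAB : Disjoint A B) (hA : A.Nonempty) (hB : B.Nonempty)
    (hno : ∀ a ∈ A, ∀ b ∈ B, ¬ G.Adj a b) : k + 1 ≤ (univ \ (A ∪ B)).card := by
  have hclne : ∀ a ∈ A, ∀ b ∈ B, cl a ≠ cl b := by
    intro a ha b hb h
    exact hno a ha b hb (hcl a b (fun e => Finset.disjoint_left.1 hAB ha (e ▸ hb)) h)
  have hAS : Disjoint A (univ \ (A ∪ B)) := by
    rw [Finset.disjoint_left]; intro x hx hx'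
    exact (mem_sdiff.1 hx').2 (mem_union_left _ hx)
  have hBS : Disjoint B (univ \ (A ∪ B)) := by
    rw [Finset.disjoint_left]; intro x hx hx'
    exact (mem_sdiff.1 hx').2 (mem_union_right _ hx)
  have hcov : ∀ v, v ∈ A ∨ v ∈ B ∨ v ∈ univ \ (A ∪ B) := by
    intro v
    simp only [mem_sdiff, mem_univ, true_and, mem_union]
    tauto
  obtain ⟨a0, ha0⟩ := hA
  obtain ⟨b0, hb0⟩ := hB
  by_cases hone : ∀ a ∈ A, cl a = cl a0
  · exact sep_aux cl hcl hnc hcc hAB hAS hBS hcov ⟨a0, ha0⟩ ⟨b0, hb0⟩ hno hone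
  · push Not at hone
    obtain ⟨a1, ha1, h1⟩ := hone
    have hone' : ∀ b ∈ B, cl b = cl b0 := by
      intro b hb
      have key : ∀ x y z w : Fin 3, x ≠ y → x ≠ z → x ≠ w → y ≠ z → y ≠ w → z = w := by decide
      exact key (cl a0) (cl a1) (cl b) (cl b0) (Ne.symm h1) (hclne a0 ha0 b hb) (hclne a0 ha0 b0 hb0)
        (hclne a1 ha1 b hb) (hclne a1 ha1 b0 hb0)
    exact sep_aux cl hcl hnc hcc hAB.symm hBS hAS (fun v => by have := hcov v; tauto) ⟨b0, hb0⟩ ⟨a0, ha0⟩
      (fun b hb a ha h => hno a ha b hb h.symm) hone'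

end Pool.Agent.T3
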