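import Mathlib

/-!
# Unions of three cliques: the counting half of the matching lemma
-/

set_option autoImplicit false

namespace Pool.Agent.T3

open Finset
open scoped Classical

/-- the arithmetic of the matching lemma -/
theorem arith {I : Type} [Fintype I] (u k : ℕ) (x : Fin 3 → I → ℕ) (n : I → ℕ)
    (hn3 : ∀ i, n i = x 0 i + x 1 i + x 2 i)
    (hsep : ∀ (a : Fin 3) (J : Finset I), (∃ i ∈ J, 0 < x a i) → (∃ i, i ∉ J ∧ x a i < n i) →
      k + 1 ≤ u + ∑ i, (if i ∈ J then n i - x a i else x a i))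
    (hpair : ∀ a : Fin 3, k + 1 ≤ u + ∑ i, (n i - x a i))
    (hn : 2 * k ≤ u + ∑ i, n i) (hU : u + ∑ i, n i / 2 < k) : False := by
  -- two nonempty components
  obtain ⟨i0, j0, hij0, hi0, hj0⟩ : ∃ i j, i ≠ j ∧ 0 < n i ∧ 0 < n j := by
    by_contra hcon
    push Not at hcon
    by_cases hex : ∃ i, 0 < n i
    · obtain ⟨i, hi⟩ := hex
      have hz : ∀ j, j ≠ i → n j = 0 := fun j hj => by
        have := hcon i j (Ne.symm hj) hi
        omega
      have h1 : ∑ j, n j = n i := Finset.sum_eq_single i (fun j _ hj => hz j hj) (fun h => absurd (mem_univ _) h)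
      have h2 : ∑ j, n j / 2 = n i / 2 := Finset.sum_eq_single i (fun j _ hj => by rw [hz j hj]; rfl)
        (fun h => absurd (mem_univ _) h)
      omega
    · push Not at hex
      have h1 : ∑ j, n j = 0 := Finset.sum_eq_zero (fun j _ => by have := hex j; omega)
      omega
  -- no heavy-light pair
  have claim1 : ∀ (a : Fin 3) (i j : I), i ≠ j → 0 < n i → 0 < n j → n i ≤ 2 * x a i → 2 * x a j ≤ n j → False := by
    intro a i j hij hi hj h1 h2
    have h3 := hsep a (univ.filter (fun l => l ≠ j ∧ n l ≤ 2 * x a l))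
      ⟨i, mem_filter.2 ⟨mem_univ _, hij, h1⟩, by omega⟩
      ⟨j, fun h => (mem_filter.1 h).2.1 rfl, by omega⟩
    have h4 : ∑ l, (if l ∈ (univ.filter (fun l => l ≠ j ∧ n l ≤ 2 * x a l)) then n l - x a l else x a l) ≤
        ∑ l, n l / 2 := by
      apply Finset.sum_le_sum
      intro l _
      by_cases hl : l ∈ (univ.filter (fun l => l ≠ j ∧ n l ≤ 2 * x a l))
      · rw [if_pos hl]
        have := (mem_filter.1 hl).2.2
        omega
      · rw [if_neg hl]
        by_cases hlj : l = j
        · rw [hlj]; omega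
        · have : ¬ n l ≤ 2 * x a l := fun h => hl (mem_filter.2 ⟨mem_univ _, hlj, h⟩)
          omega
    omega
  have claim2 : ∀ a : Fin 3, (∀ i, 0 < n i → n i < 2 * x a i) ∨ (∀ i, 0 < n i → 2 * x a i < n i) := by
    intro a
    by_cases h : n i0 ≤ 2 * x a i0
    · left
      have h1 : ∀ j, j ≠ i0 → 0 < n j → n j < 2 * x a j := by
        intro j hj hnj
        by_contra hc
        exact claim1 a i0 j (Ne.symm hj) hi0 hnj h (by omega)
      intro i hi
      by_cases hii : i = i0
      · subst hii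
        by_contra hc
        have := h1 j0 (Ne.symm hij0) hj0
        exact claim1 a j0 i (Ne.symm hij0) hj0 hi (by omega) (by omega)
      · exact h1 i hii hi
    · right
      intro i hi
      by_cases hii : i = i0
      · subst hii; omega
      · by_contra hc
        exact claim1 a i i0 hii hi hi0 (by omega) (by omega)
  -- no heavy index
  have claim3 : ∀ a : Fin 3, ∀ i, 0 < n i → 2 * x a i < n i := by
    intro a
    rcases claim2 a with h | h
    · exfalso
      have h1 := hpair a
      have h2 : ∑ i, (n i - x a i) ≤ ∑ i, n i / 2 := by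
        apply Finset.sum_le_sum
        intro i _
        rcases Nat.eq_zero_or_pos (n i) with h3 | h3
        · omega
        · have := h i h3; omega
      omega
    · exact h
  -- the light case
  obtain ⟨i1, hi1, hmin⟩ := Finset.exists_min_image (univ.filter (fun i => 0 < n i)) (fun i => (n i + 1) / 2 - x 0 i)
    ⟨i0, mem_filter.2 ⟨mem_univ _, hi0⟩⟩
  have hi1' := (mem_filter.1 hi1).2
  obtain ⟨i2, hi2ne, hi2⟩ : ∃ i2, i2 ≠ i1 ∧ 0 < n i2 := by
    by_cases h : i0 = i1
    · exact ⟨j0, fun h' => hij0 (h.trans h'.symm), hj0⟩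
    · exact ⟨i0, h, hi0⟩
  have h3 := hsep 0 {i1} ⟨i1, mem_singleton_self _, by
      have e0 := hn3 i1
      have e1 := claim3 1 i1 hi1'
      have e2 := claim3 2 i1 hi1'
      omega⟩ ⟨i2, fun h => hi2ne (mem_singleton.1 h), by have := claim3 0 i2 hi2; omega⟩
  have h4 : ∑ i, (if i ∈ ({i1} : Finset I) then n i - x 0 i else x 0 i) =
      (n i1 - x 0 i1) + ∑ i ∈ univ.erase i1, x 0 i := by
    rw [← Finset.add_sum_erase univ _ (mem_univ i1), if_pos (mem_singleton_self _)]
    congr 1
    apply Finset.sum_congr rfl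
    intro i hi
    rw [if_neg]
    rw [mem_singleton]
    exact (mem_erase.1 hi).1
  have h5 : ∑ i, n i / 2 = n i1 / 2 + ∑ i ∈ univ.erase i1, n i / 2 :=
    (Finset.add_sum_erase univ _ (mem_univ i1)).symm
  have hi2e : i2 ∈ univ.erase i1 := mem_erase.2 ⟨hi2ne, mem_univ _⟩
  have h6 : ∑ i ∈ univ.erase i1, n i / 2 = n i2 / 2 + ∑ i ∈ (univ.erase i1).erase i2, n i / 2 :=
    (Finset.add_sum_erase _ _ hi2e).symm
  have h7 : ∑ i ∈ univ.erase i1, x 0 i = x 0 i2 + ∑ i ∈ (univ.erase i1).erase i2, x 0 i :=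
    (Finset.add_sum_erase _ _ hi2e).symm
  have h8 : ∑ i ∈ (univ.erase i1).erase i2, x 0 i ≤ ∑ i ∈ (univ.erase i1).erase i2, n i / 2 := by
    apply Finset.sum_le_sum
    intro i _
    rcases Nat.eq_zero_or_pos (n i) with h | h
    · have := hn3 i; omega
    · have := claim3 0 i h; omega
  have h9 := hmin i2 (mem_filter.2 ⟨mem_univ _, hi2⟩)
  have h10 := claim3 0 i1 hi1'
  have h11 := claim3 0 i2 hi2
  omega

/-- the counting half of the matching lemma -/
theorem count {V I : Type} [Fintype V] [Fintype I] {G : SimpleGraph V} (cl : V → Fin 3) {k : ℕ} (U : Finset V)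
    (comp : V → I)
    (hno : ∀ u v, u ∉ U → v ∉ U → comp u ≠ comp v → cl u ≠ cl v → ¬ G.Adj u v)
    (hsep : ∀ A B : Finset V, Disjoint A B → A.Nonempty → B.Nonempty → (∀ a ∈ A, ∀ b ∈ B, ¬ G.Adj a b) →
      k + 1 ≤ (univ \ (A ∪ B)).card)
    (hpair : ∀ a : Fin 3, k + 1 ≤ (univ.filter (fun v => cl v ≠ a)).card)
    (hn : 2 * k ≤ Fintype.card V)
    (hU : U.card + ∑ i, (univ.filter (fun v => v ∉ U ∧ comp v = i)).card / 2 < k) : False := by
  let n : I → ℕ := fun i => (univ.filter (fun v => v ∉ U ∧ comp v = i)).card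
  let x : Fin 3 → I → ℕ := fun a i => (univ.filter (fun v => (v ∉ U ∧ comp v = i) ∧ cl v = a)).card
  let y : Fin 3 → I → ℕ := fun a i => (univ.filter (fun v => (v ∉ U ∧ comp v = i) ∧ ¬ cl v = a)).card
  have hxy : ∀ a i, x a i + y a i = n i := by
    intro a i
    have h := Finset.card_filter_add_card_filter_not (s := univ.filter (fun v => v ∉ U ∧ comp v = i))
      (fun v => cl v = a)
    rw [filter_filter, filter_filter] at h
    exact h
  have hn3 : ∀ i, n i = x 0 i + x 1 i + x 2 i := by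
    intro i
    have h0 := hxy 0 i
    have h1 : y 0 i = x 1 i + x 2 i := by
      show (univ.filter (fun v => (v ∉ U ∧ comp v = i) ∧ ¬ cl v = 0)).card =
        (univ.filter (fun v => (v ∉ U ∧ comp v = i) ∧ cl v = 1)).card +
        (univ.filter (fun v => (v ∉ U ∧ comp v = i) ∧ cl v = 2)).card
      rw [← card_union_of_disjoint]
      · congr 1
        ext v
        simp only [mem_filter, mem_univ, true_and, mem_union]
        have key : ∀ a : Fin 3, (¬ a = 0 ↔ (a = 1 ∨ a = 2)) := by decide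
        rw [key]
        tauto
      · rw [Finset.disjoint_left]
        intro v hv hv'
        have e1 := (mem_filter.1 hv).2.2
        have e2 := (mem_filter.1 hv').2.2
        rw [e1] at e2
        exact absurd e2 (by decide)
    omega
  -- sums over components
  have hsum : ∀ (p : V → Prop), (univ.filter (fun v => v ∉ U ∧ p v)).card =
      ∑ i, (univ.filter (fun v => (v ∉ U ∧ comp v = i) ∧ p v)).card := by
    intro p
    rw [Finset.card_eq_sum_card_fiberwise (f := comp) (t := univ) (fun _ _ => mem_univ _)]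
    apply Finset.sum_congr rfl
    intro i _
    congr 1
    ext v
    simp only [mem_filter, mem_univ, true_and]
    tauto
  have hVU : Fintype.card V = U.card + ∑ i, n i := by
    have h1 := hsum (fun _ => True)
    have h2 : (univ.filter (fun v => v ∉ U ∧ True)).card = Fintype.card V - U.card := by
      rw [← card_compl]
      congr 1
      ext v
      simp
    have h5 : (univ.filter (fun v => v ∉ U ∧ True)).card =
        ∑ i, (univ.filter (fun v => (v ∉ U ∧ comp v = i) ∧ True)).card := by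
      convert h1
    have h3 : ∑ i, (univ.filter (fun v => (v ∉ U ∧ comp v = i) ∧ True)).card = ∑ i, n i := by
      apply Finset.sum_congr rfl
      intro i _
      show _ = (univ.filter (fun v => v ∉ U ∧ comp v = i)).card
      congr 1
      ext v
      simp
    have h4 := card_le_univ U
    rw [h2, h3] at h5
    omega
  refine arith U.card k x n hn3 ?_ ?_ (by omega) hU
  · rintro a J ⟨i, hiJ, hi⟩ ⟨j, hjJ, hj⟩
    let A : Finset V := univ.filter (fun v => v ∉ U ∧ comp v ∈ J ∧ cl v = a)
    let B : Finset V := univ.filter (fun v => v ∉ U ∧ comp v ∉ J ∧ cl v ≠ a)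
    have hA : A.Nonempty := by
      obtain ⟨v, hv⟩ := card_pos.1 hi
      obtain ⟨⟨h1, h2⟩, h3⟩ := (mem_filter.1 hv).2
      exact ⟨v, mem_filter.2 ⟨mem_univ _, h1, h2 ▸ hiJ, h3⟩⟩
    have hB : B.Nonempty := by
      have hy := hxy a j
      obtain ⟨v, hv⟩ := card_pos.1 (show 0 < (univ.filter (fun v => (v ∉ U ∧ comp v = j) ∧ ¬ cl v = a)).card by
        change 0 < y a j; omega)
      obtain ⟨⟨h1, h2⟩, h3⟩ := (mem_filter.1 hv).2
      exact ⟨v, mem_filter.2 ⟨mem_univ _, h1, h2 ▸ hjJ, h3⟩⟩
    have hAB : Disjoint A B := by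
      rw [Finset.disjoint_left]
      intro v hv hv'
      exact (mem_filter.1 hv').2.2.1 (mem_filter.1 hv).2.2.1
    have h1 := hsep A B hAB hA hB (by
      intro u hu v hv
      obtain ⟨-, h1, h2, h3⟩ := mem_filter.1 hu
      obtain ⟨-, h1', h2', h3'⟩ := mem_filter.1 hv
      exact hno u v h1 h1' (fun h => h2' (h ▸ h2)) (fun h => h3' (h ▸ h3)))
    refine h1.trans ?_
    have h2 : univ \ (A ∪ B) ⊆ U ∪ univ.filter (fun v => v ∉ U ∧ ((comp v ∈ J ∧ cl v ≠ a) ∨ (comp v ∉ J ∧ cl v = a))) := by
      intro v hv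
      simp only [A, B, mem_sdiff, mem_univ, true_and, mem_union, mem_filter] at hv ⊢
      by_cases h3 : v ∈ U <;> by_cases h4 : comp v ∈ J <;> by_cases h5 : cl v = a <;> simp_all
    refine (card_le_card h2).trans ((card_union_le _ _).trans (Nat.add_le_add_left ?_ _))
    have e1 : (univ.filter (fun v => v ∉ U ∧ ((comp v ∈ J ∧ cl v ≠ a) ∨ (comp v ∉ J ∧ cl v = a)))).card =
        ∑ i, (univ.filter (fun v => (v ∉ U ∧ comp v = i) ∧ ((comp v ∈ J ∧ cl v ≠ a) ∨ (comp v ∉ J ∧ cl v = a)))).card := by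
      have e0 := hsum (fun v => (comp v ∈ J ∧ cl v ≠ a) ∨ (comp v ∉ J ∧ cl v = a))
      convert e0
    rw [e1]
    apply Finset.sum_le_sum
    intro l _
    by_cases hl : l ∈ J
    · rw [if_pos hl]
      have h3 := hxy a l
      have h4 : (univ.filter (fun v => (v ∉ U ∧ comp v = l) ∧ ((comp v ∈ J ∧ cl v ≠ a) ∨ (comp v ∉ J ∧ cl v = a)))).card ≤ y a l := by
        apply card_le_card
        intro v hv
        rw [mem_filter] at hv ⊢
        obtain ⟨-, ⟨h5, h6⟩, h7 | h7⟩ := hv
        · exact ⟨mem_univ _, ⟨h5, h6⟩, h7.2⟩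
        · exact absurd (h6 ▸ hl) h7.1
      omega
    · rw [if_neg hl]
      apply card_le_card
      intro v hv
      rw [mem_filter] at hv ⊢
      obtain ⟨-, ⟨h5, h6⟩, h7 | h7⟩ := hv
      · exact absurd (h6 ▸ h7.1) hl
      · exact ⟨mem_univ _, ⟨h5, h6⟩, h7.2⟩
  · intro a
    refine (hpair a).trans ?_
    have h1 : univ.filter (fun v => cl v ≠ a) ⊆ U ∪ univ.filter (fun v => v ∉ U ∧ cl v ≠ a) := by
      intro v hv
      simp only [mem_union, mem_filter, mem_univ, true_and] at hv ⊢
      by_cases h : v ∈ U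
      · exact Or.inl h
      · exact Or.inr ⟨h, hv⟩
    refine (card_le_card h1).trans ((card_union_le _ _).trans (Nat.add_le_add_left ?_ _))
    have e1 : (univ.filter (fun v => v ∉ U ∧ cl v ≠ a)).card =
        ∑ i, (univ.filter (fun v => (v ∉ U ∧ comp v = i) ∧ cl v ≠ a)).card := by
      have e0 := hsum (fun v => cl v ≠ a)
      convert e0
    rw [e1]
    apply Finset.sum_le_sum
    intro i _
    have h2 := hxy a i
    have h3 : (univ.filter (fun v => (v ∉ U ∧ comp v = i) ∧ cl v ≠ a)).card = y a i := rfl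
    omega

end Pool.Agent.T3
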