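import Mathlib
import Pool.Agent.CA72.MinCE
import Pool.Agent.CA31.Closure
import Pool.Agent.T3.Gal
import Pool.Agent.T3.SM

/-!
Q1 for graphs which are unions of three cliques: minimal counterexamples (helper23; theorem and
proof by helper92).
-/

set_option autoImplicit false

namespace Pool.Agent.T3

open Finset Pool.Agent.CA31 Pool.Agent.CA72 Pool.Agent.CA31C
open scoped Classical

/-- the separation theorem for minimal counterexamples -/
def SepStmt : Prop :=
  ∀ (V : Type) [Fintype V] (G : SimpleGraph V) (cl : V → Fin 3),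
    (∀ u v, u ≠ v → cl u = cl v → G.Adj u v) → ∀ k : ℕ, ¬ G.Colorable k → ConCrit G k →
    ∀ A B : Finset V, A.Nonempty → B.Nonempty → Disjoint A B → (∀ a ∈ A, ∀ b ∈ B, ¬ G.Adj a b) →
      k + 1 ≤ (univ \ (A ∪ B)).card

/-- the matching lemma -/
def MatchStmt : Prop :=
  ∀ (V : Type) [Fintype V] (G : SimpleGraph V) (cl : V → Fin 3),
    (∀ u v, u ≠ v → cl u = cl v → G.Adj u v) → ∀ k : ℕ,
    (∀ A B : Finset V, A.Nonempty → B.Nonempty → Disjoint A B → (∀ a ∈ A, ∀ b ∈ B, ¬ G.Adj a b) →
      k + 1 ≤ (univ \ (A ∪ B)).card) →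
    (∀ a, k + 1 ≤ (univ.filter (fun v => cl v ≠ a)).card) → 2 * k ≤ Fintype.card V →
    ∃ x y : Fin k → V, Function.Injective x ∧ Function.Injective y ∧ (∀ i j, x i ≠ y j) ∧
      ∀ i, G.Adj (x i) (y i) ∧ cl (x i) ≠ cl (y i)

theorem main_aux (hsep : SepStmt) (hmatch : MatchStmt) : ∀ n : ℕ, ∀ (V : Type) [Fintype V]
    (G : SimpleGraph V) (cl : V → Fin 3), (∀ u v, u ≠ v → cl u = cl v → G.Adj u v) →
    ∀ k : ℕ, Fintype.card V = n → ¬ G.Colorable k → SM G k := by
  intro n
  induction n using Nat.strong_induction_on with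
  | _ n ih =>
    intro V _ G cl hcl k hn hk
    by_contra hno
    -- quotients
    have hcc : ConCrit G k := by
      intro W _ f hc hd hlt
      by_contra hcol
      have hch : ∀ i, ∃ v, v ∈ f i := fun i => ⟨(hc i).nonempty.some.1, (hc i).nonempty.some.2⟩
      choose g hg using hch
      refine hno (SM.quot hc hd (ih _ (hn ▸ hlt) W (QG G f) (fun i => cl (g i)) ?_ k rfl hcol))
      intro i j hij hcij
      have hne : g i ≠ g j := fun h => Set.disjoint_left.1 (hd i j hij) (hg i) (h ▸ hg j)
      exact ⟨hij, g i, hg i, g j, hg j, hcl _ _ hne hcij⟩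
    have hV : Nonempty V := by
      by_contra h
      have : IsEmpty V := not_nonempty_iff.1 h
      exact hk ⟨SimpleGraph.Coloring.mk (fun v => (this.false v).elim)
        (fun {u v} _ => (this.false u).elim)⟩
    have hcrit : ∀ v, (G.induce {w | w ≠ v}).Colorable k := by
      intro v
      have hlt : Fintype.card {w : V // w ≠ v} < Fintype.card V :=
        Fintype.card_subtype_lt (x := v) (by simp)
      obtain ⟨C⟩ := hcc {w : V // w ≠ v} (fun i => {i.1}) (fun i => singleton_conn G i.1)
        (fun i j hij => by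
          rw [Set.disjoint_singleton]
          exact fun e => hij (Subtype.ext e)) hlt
      refine ⟨SimpleGraph.Coloring.mk (fun w => C ⟨w.1, w.2⟩) ?_⟩
      intro u w huw
      have h1 : (QG G (fun i : {w : V // w ≠ v} => ({i.1} : Set V))).Adj ⟨u.1, u.2⟩ ⟨w.1, w.2⟩ :=
        ⟨fun e => huw.ne (Subtype.ext (Subtype.ext_iff.1 e)), u.1, rfl, w.1, rfl, huw⟩
      exact C.valid h1
    -- the complement is connected
    have hconn : Gᶜ.Preconnected := by
      by_contra hcon
      unfold SimpleGraph.Preconnected at hcon
      push Not at hcon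
      obtain ⟨u, v, huv⟩ := hcon
      set A : Set V := {w | Gᶜ.Reachable u w} with hA
      have huA : u ∈ A := SimpleGraph.Reachable.refl u
      have hvA : v ∉ A := huv
      have hjoin : ∀ a ∈ A, ∀ b ∈ Aᶜ, G.Adj a b := by
        intro a ha b hb
        by_contra h
        have hne : a ≠ b := by
          rintro rfl
          exact hb ha
        have h1 : Gᶜ.Adj a b := by
          rw [SimpleGraph.compl_adj]
          exact ⟨hne, h⟩
        exact hb (SimpleGraph.Reachable.trans ha h1.reachable)
      obtain ⟨r1, hr1, hr1'⟩ := exists_chi (G.induce A)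
      obtain ⟨r2, hr2, hr2'⟩ := exists_chi (G.induce Aᶜ)
      have h1 : k < r1 + r2 := by
        by_contra h
        exact hk ((colorable_join hr1 hr2).mono (by omega))
      have h2 : 0 < r1 := by
        rcases Nat.eq_zero_or_pos r1 with h | h
        · subst h
          obtain ⟨C⟩ := hr1
          exact (C ⟨u, huA⟩).elim0
        · exact h
      have h3 : 0 < r2 := by
        rcases Nat.eq_zero_or_pos r2 with h | h
        · subst h
          obtain ⟨C⟩ := hr2
          exact (C ⟨v, hvA⟩).elim0
        · exact h
      have h4 : Fintype.card A < n := by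
        rw [← hn]
        exact Fintype.card_subtype_lt (x := v) hvA
      have h5 : Fintype.card (Aᶜ : Set V) < n := by
        rw [← hn]
        exact Fintype.card_subtype_lt (x := u) (fun h => h huA)
      have h6 := ih _ h4 A (G.induce A) (fun w => cl w.1)
        (fun a b hab h => hcl _ _ (fun e => hab (Subtype.ext e)) h) (r1 - 1) rfl
        (hr1' _ (by omega))
      have h7 := ih _ h5 (Aᶜ : Set V) (G.induce Aᶜ) (fun w => cl w.1)
        (fun a b hab h => hcl _ _ (fun e => hab (Subtype.ext e)) h) (r2 - 1) rfl
        (hr2' _ (by omega))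
      exact hno ((SM.join hjoin h6 h7).mono (by omega))
    have hgal := gallai_card hk hcrit hconn
    -- cliques
    have hcliq : ∀ K : Finset V, (∀ x ∈ K, ∀ y ∈ K, x ≠ y → G.Adj x y) → K.card ≤ k := by
      intro K hK
      by_contra h
      obtain ⟨t, ht, htc⟩ := Finset.exists_subset_card_eq (s := K) (n := k + 1) (by omega)
      exact hno (SM.of_clique (fun hfree => hfree t ⟨fun x hx y hy hxy =>
        hK x (ht hx) y (ht hy) hxy, htc⟩))
    have hpair : ∀ a, k + 1 ≤ (univ.filter (fun v => cl v ≠ a)).card := by
      intro a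
      have h1 := hcliq (univ.filter (fun v => cl v = a)) (fun x hx y hy hxy =>
        hcl x y hxy ((mem_filter.1 hx).2.trans (mem_filter.1 hy).2.symm))
      have h2 := Finset.card_filter_add_card_filter_not (s := (univ : Finset V)) (fun v => cl v = a)
      rw [Finset.card_univ] at h2
      have h3 : (univ.filter (fun v => cl v ≠ a)).card =
        (univ.filter (fun v => ¬ cl v = a)).card := rfl
      rw [h3]
      omega
    obtain ⟨x, y, hx, hy, hxy, hadj⟩ := hmatch V G cl hcl k
      (hsep V G cl hcl k hk hcc) hpair (by omega)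
    -- a further vertex
    obtain ⟨v0, hv0⟩ : ∃ v0, (∀ i, v0 ≠ x i) ∧ ∀ i, v0 ≠ y i := by
      by_contra h
      push Not at h
      have h1 : (univ : Finset V) ⊆ univ.image x ∪ univ.image y := by
        intro v _
        by_cases hvx : ∃ i, v = x i
        · obtain ⟨i, rfl⟩ := hvx
          exact mem_union_left _ (mem_image_of_mem _ (mem_univ _))
        · push Not at hvx
          obtain ⟨i, hi⟩ := h v hvx
          rw [hi]
          exact mem_union_right _ (mem_image_of_mem _ (mem_univ _))
      have h2 := Finset.card_le_card h1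
      have h3 := Finset.card_union_le (univ.image x) (univ.image y)
      have h4 : (univ.image x).card ≤ k := Finset.card_image_le.trans (by simp)
      have h5 : (univ.image y).card ≤ k := Finset.card_image_le.trans (by simp)
      rw [Finset.card_univ] at h2
      omega
    refine hno (SM.of_edges x y v0 (fun i => (hadj i).1) (fun i j hij e => hij (hx e))
      (fun i j hij e => hij (hy e)) hxy (fun i e => hv0.1 i e.symm) (fun i e => hv0.2 i e.symm) ?_)
    intro i j hij
    have h1 := (hadj i).2
    have h2 := (hadj j).2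
    have key : cl (x i) = cl (x j) ∨ cl (x i) = cl (y j) ∨ cl (y i) = cl (x j) ∨
        cl (y i) = cl (y j) := by
      revert h1 h2
      generalize cl (x i) = a
      generalize cl (y i) = b
      generalize cl (x j) = c
      generalize cl (y j) = d
      revert a b c d
      decide
    rcases key with h | h | h | h
    · exact Or.inl (hcl _ _ (fun e => hij (hx e)) h)
    · exact Or.inr (Or.inl (hcl _ _ (hxy i j) h))
    · exact Or.inr (Or.inr (Or.inl (hcl _ _ (fun e => hxy j i e.symm) h)))
    · exact Or.inr (Or.inr (Or.inr (hcl _ _ (fun e => hij (hy e)) h)))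

/-- every graph whose vertex set is the union of three cliques and which is not `k`-colourable has a
split model of `K_k` -/
theorem main_of (hsep : SepStmt) (hmatch : MatchStmt) {V : Type} [Fintype V] {G : SimpleGraph V}
    (cl : V → Fin 3) (hcl : ∀ u v, u ≠ v → cl u = cl v → G.Adj u v) {k : ℕ}
    (hk : ¬ G.Colorable k) : SM G k :=
  main_aux hsep hmatch _ V G cl hcl k rfl hk

/-- the class generated by the unions of three cliques and helper31's class `Cls` (circular-arc
graphs, graphs with equal chromatic and clique number and so on) under joins and clique-sums -/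
inductive Cls3 : (V : Type) → SimpleGraph V → Prop
  | three (V : Type) (G : SimpleGraph V) (cl : V → Fin 3)
      (h : ∀ u v, u ≠ v → cl u = cl v → G.Adj u v) : Cls3 V G
  | had (V : Type) (G : SimpleGraph V) (h : Cls V G) : Cls3 V G
  | join (V : Type) (G : SimpleGraph V) (A : Set V) (hj : ∀ a ∈ A, ∀ b ∈ Aᶜ, G.Adj a b)
      (hA : Cls3 A (G.induce A)) (hB : Cls3 (Aᶜ : Set V) (G.induce Aᶜ)) : Cls3 V G
  | cliqueSum (V : Type) (G : SimpleGraph V) (A B : Set V) (hAB : A ∪ B = Set.univ)
      (hc : G.IsClique (A ∩ B)) (hn : ∀ a ∈ A \ B, ∀ b ∈ B \ A, ¬ G.Adj a b)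
      (hA : Cls3 A (G.induce A)) (hB : Cls3 B (G.induce B)) : Cls3 V G

theorem cls3_of (hsep : SepStmt) (hmatch : MatchStmt)
    (H : ∀ (V : Type) (G : SimpleGraph V), Cls V G → Finite V → ∀ k, ¬ G.Colorable k →
      HasMinor G (k + 1)) (V : Type) (G : SimpleGraph V) (h : Cls3 V G) :
    Finite V → ∀ k, ¬ G.Colorable k → SM G k := by
  induction h with
  | three V G cl h =>
    intro hV k hk
    have := Fintype.ofFinite V
    exact main_of hsep hmatch cl h hk
  | had V G h =>
    intro hV k hk
    exact SM.of_hasMinor (H V G h hV k hk)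
  | join V G A hj hA hB ih1 ih2 =>
    intro hV k hk
    by_cases hne : A.Nonempty ∧ (Aᶜ).Nonempty
    · exact SM.of_join hj hne.1 hne.2 (ih1 inferInstance) (ih2 inferInstance) hk
    · rw [not_and_or, Set.not_nonempty_iff_eq_empty, Set.not_nonempty_iff_eq_empty] at hne
      rcases hne with h | h
      · refine (ih2 inferInstance k (fun hc => hk ?_)).of_induce
        obtain ⟨C⟩ := hc
        refine ⟨SimpleGraph.Coloring.mk (fun v => C ⟨v, by rw [h]; simp⟩) ?_⟩
        intro u v huv
        exact C.valid (v := ⟨u, _⟩) (w := ⟨v, _⟩) huv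
      · refine (ih1 inferInstance k (fun hc => hk ?_)).of_induce
        obtain ⟨C⟩ := hc
        have hu : ∀ v, v ∈ A := fun v => by
          by_contra hv
          have : v ∈ Aᶜ := hv
          rw [h] at this
          exact this
        refine ⟨SimpleGraph.Coloring.mk (fun v => C ⟨v, hu v⟩) ?_⟩
        intro u v huv
        exact C.valid (v := ⟨u, _⟩) (w := ⟨v, _⟩) huv
  | cliqueSum V G A B hAB hc hn hA hB ih1 ih2 =>
    intro hV k hk
    exact SM.of_cliqueSum hAB hc hn (ih1 inferInstance) (ih2 inferInstance) hk

end Pool.Agent.T3
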