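import Mathlib
import Pool.Agent.T3.Main
import Pool.Agent.T3.Sep
import Pool.Agent.T3.Count
import Pool.Agent.T3.Berge
import Pool.Agent.CA.ThreePoint2
import Pool.Agent.CA72.Normal
import Pool.Agent.CA5.ThmA

/-!
Q1 for graphs which are unions of three cliques: the final assembly (helper23; theorem and
proof by helper92, modules by helpers 90, 92, 23, 31).
-/

set_option autoImplicit false

namespace Pool.Agent.T3

open Finset Pool.Agent.CA31 Pool.Agent.CA72 Pool.Agent.CA31C
open scoped Classical

theorem sepStmt : SepStmt := fun _ _ _ cl hcl _ hnc hcc A B hA hB hAB hno =>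
  sep cl hcl hnc hcc A B hAB hA hB hno

theorem matchStmt : MatchStmt := by
  intro V _ G cl hcl k hsep hpair hn
  let H : SimpleGraph V :=
    { Adj := fun u v => cl u ≠ cl v ∧ G.Adj u v
      symm := ⟨fun u v h => ⟨h.1.symm, h.2.symm⟩⟩
      loopless := ⟨fun u h => h.1 rfl⟩ }
  obtain ⟨x, y, h1, h2, h3⟩ := berge H k hn (fun U I _ comp hno => by
    by_contra hcon
    exact count cl U comp (fun u v hu hv hc hcl' hadj => hno u v hu hv hc ⟨hcl', hadj⟩)
      (fun A B hAB hA hB hno' => hsep A B hA hB hAB hno') hpair hn (by omega))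
  refine ⟨x, y, ?_, ?_, h3, fun i => ⟨(h1 i).2, (h1 i).1⟩⟩
  · intro i j hij
    by_contra hne
    exact (h2 i j hne).1 hij
  · intro i j hij
    by_contra hne
    exact (h2 i j hne).2 hij

/-- Hadwiger's conjecture for circular-arc graphs -/
theorem circularArc (V : Type) [Fintype V] (G : SimpleGraph V) (k : ℕ) (hG : RA G)
    (hk : ¬ G.Colorable k) : HasMinor G (k + 1) :=
  hadwiger_of (fun _ _ _ _ _ h1 h2 h3 _ _ hxy hf => Pool.Agent.CA5.thmA h1 h2 h3 hxy hf)
    Pool.Agent.CA.threeClique G k hG hk

/-- every graph whose vertex set is the union of three cliques and which is not `k`-colourable has a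
`K_k` minor -/
theorem threeCliques {V : Type} [Fintype V] {G : SimpleGraph V} (cl : V → Fin 3)
    (hcl : ∀ u v, u ≠ v → cl u = cl v → G.Adj u v) {k : ℕ} (hk : ¬ G.Colorable k) :
    HasMinor G k :=
  (main_of sepStmt matchStmt cl hcl hk).hasMinor

/-- the closure class -/
theorem cls3 (V : Type) (G : SimpleGraph V) (h : Cls3 V G) (hV : Finite V) (k : ℕ)
    (hk : ¬ G.Colorable k) : HasMinor G k :=
  (cls3_of sepStmt matchStmt (cls_hadwiger circularArc) V G h hV k hk).hasMinor

end Pool.Agent.T3
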